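import Pool.Agent.Helper64.PC.Jp
import Pool.Agent.Helper46.SP.All

/-!
# Assembly of the two models
-/

namespace Pool.Agent.Helper64.PC

open Pool.Agent.Helper46.SP Cardinal

/-- The product of Silver forcings is bounding. -/
def ST_bounding : Prop := ∀ K : Type, Bounding (Sil K)

theorem goal_of (hsat : ST_sat) (hac : ST_ac) (hbridge : ST_bridge) (hpush : ST_push)
    (hbd : ST_bounding) (hsilver : ST_silver) (hneg : ST_neg) (hdist : ST_dist)
    (hdata : ST_data) : Goal := by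
  constructor
  · have hK : 𝔠 < #(Set (Set ℕ)) := by
      rw [Cardinal.mk_set, Cardinal.mk_set, Cardinal.mk_nat]
      exact Cardinal.cantor _
    obtain ⟨M, E, hZF, h⟩ := all_model _ _ (triv (Sil (Set (Set ℕ)))) ⊤
    obtain ⟨h1, h2⟩ := hsat M E
    refine ⟨M, E, hZF, h2.1 (h _ (hac _ _)), h1.1 (h _ (hbridge _ (hbd _) ?_ _))⟩
    intro p d
    obtain ⟨g⟩ := hpush _ p d
    exact hsilver _ hK p g
  · obtain ⟨M, E, hZF, h⟩ := all_model _ _ (triv JP) ⊤
    obtain ⟨h1, h2⟩ := hsat M E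
    obtain ⟨d⟩ := hdata
    refine ⟨M, E, hZF, h2.1 (h _ (hac _ _)), fun hq => ?_⟩
    exact h _ (hneg _ hdist d _) (h1.2 hq)

end Pool.Agent.Helper64.PC
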