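import Pool.Agent.Helper64.PC.Fmls

/-!
# Partition cuts: the trivial symmetric system, names of functions and of ultrafilters,
the two forcing notions, and the exact statements of the modules
-/

namespace Pool.Agent.Helper64.PC

open Pool.Agent.Helper46.SP Name Cardinal Set

/-! ## The trivial system: every name is hereditarily symmetric -/

/-- The trivial group. -/
inductive Tg : Type
  | one

instance : Group Tg where
  mul _ _ := .one
  one := .one
  inv _ := .one
  mul_assoc _ _ _ := rfl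
  one_mul a := by cases a; rfl
  mul_one a := by cases a; rfl
  inv_mul_cancel _ := rfl

instance (P : Type) : MulAction Tg P where
  smul _ p := p
  one_smul _ := rfl
  mul_smul _ _ _ := rfl

/-- The symmetric system without symmetry: the symmetric model is the full forcing
extension. -/
def triv (P : Type) [Preorder P] [OrderTop P] : SymSys P Tg where
  smul_le _ _ _ h := h
  smul_top _ := rfl
  F := Set.univ
  top_mem := trivial
  inf_mem _ _ _ _ := trivial
  mono _ _ _ _ := trivial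
  conj_mem H _ g := ⟨H, trivial, fun k hk => by cases g; cases k; exact hk⟩

/-- Choice is forced. -/
def ST_ac : Prop :=
  ∀ (P : Type) [Preorder P] [OrderTop P] (p : P), (triv P).Forces Fm.ac Fin.elim0 p

/-! ## Names of functions and of ultrafilters -/

/-- `A` is predense below `p`. -/
def Fd {P : Type} [Preorder P] (A : Set P) (p : P) : Prop :=
  ∀ q ≤ p, ∃ r ≤ q, ∃ a ∈ A, r ≤ a

/-- Below `p₀`, the name of a function from `I` to `T`: `V i t p` says that `p` decides that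
the value at `i` is `t`. -/
structure FName (P : Type) [Preorder P] (p₀ : P) (I T : Type) where
  V : I → T → P → Prop
  mono : ∀ i t p q, V i t p → q ≤ p → V i t q
  total : ∀ i, ∀ p ≤ p₀, ∃ q ≤ p, ∃ t, V i t q
  uniq : ∀ i t t', ∀ p ≤ p₀, V i t p → V i t' p → t = t'

/-- Below `p₀`, the name of an ultrafilter on `I`: `W X p` says that `p` forces the set
`{i | X i meets the generic filter}` to be large. -/
structure UName (P : Type) [Preorder P] (p₀ : P) (I : Type) where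
  W : (I → Set P) → P → Prop
  mono : ∀ X p q, W X p → q ≤ p → W X q
  dense : ∀ X p, (∀ q ≤ p, ∃ r ≤ q, W X r) → W X p
  inter : ∀ X Y Z, ∀ p ≤ p₀, W X p → W Y p →
    (∀ i, ∀ q ≤ p, Fd (X i) q → Fd (Y i) q → Fd (Z i) q) → W Z p
  ultra : ∀ X Y, ∀ p ≤ p₀, (∀ i, ∀ q ≤ p, ∃ r ≤ q, Fd (X i) r ∨ Fd (Y i) r) →
    ∃ q ≤ p, W X q ∨ W Y q
  ne : ∀ X, ∀ p ≤ p₀, W X p → ∃ i, ∃ q ≤ p, Fd (X i) q

/-- Every name of a function from `ℕ` to `ℕ` is bounded by a ground model function. -/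
def Bounding (P : Type) [Preorder P] : Prop :=
  ∀ (p : P) (b : FName P p ℕ ℕ), ∃ q ≤ p, ∃ f : ℕ → ℕ, ∀ j c, ∀ r ≤ q, b.V j c r → c ≤ f j

/-- No new functions with countable domain are added. -/
def Dist (P : Type) [Preorder P] : Prop :=
  ∀ (p : P) (I T : Type) [Countable I] (b : FName P p I T),
    ∃ q ≤ p, ∃ f : I → T, ∀ i t, ∀ r ≤ q, b.V i t r → t = f i

/-! ## A counterexample to Q1 in the extension -/

/-- Below `p₀`: an ultrafilter on `ℕ`, a partition into small sets, a sequence of internal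
sets whose intersection is the partition cut, and a function `u` which is not in the cut. -/
structure CutData (P : Type) [Preorder P] (p₀ : P) where
  U : UName P p₀ ℕ
  cof : ∀ N : ℕ, U.W (fun i => {_r | N ≤ i}) p₀
  π : FName P p₀ ℕ ℕ
  small : ∀ j, ∀ p ≤ p₀, ¬ U.W (fun i => {r | π.V i j r}) p
  R : ℕ → ℕ → ℕ → Set P
  R_mono : ∀ k i v p q, p ∈ R k i v → q ≤ p → q ∈ R k i v
  R_dense : ∀ k i v p, (∀ q ≤ p, ∃ r ≤ q, r ∈ R k i v) → p ∈ R k i v
  u : FName P p₀ ℕ ℕ
  u_not : ∀ f : ℕ → ℕ, ∀ p ≤ p₀,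
    ¬ U.W (fun i => {r | ∃ a j, u.V i a r ∧ π.V i j r ∧ a ≤ f j}) p
  cut_sub : ∀ f : ℕ → ℕ, ∀ p ≤ p₀, ∀ x : FName P p ℕ ℕ,
    (∀ i, ∀ q ≤ p, ∀ a j, x.V i a q → π.V i j q → a ≤ f j) →
    ∀ k, U.W (fun i => {r | ∃ a, x.V i a r ∧ r ∈ R k i a}) p
  cut_sup : ∀ p ≤ p₀, ∀ x : FName P p ℕ ℕ,
    (∀ k, U.W (fun i => {r | ∃ a, x.V i a r ∧ r ∈ R k i a}) p) →
    ∃ q ≤ p, ∃ f : ℕ → ℕ, U.W (fun i => {r | ∃ a j, x.V i a r ∧ π.V i j r ∧ a ≤ f j}) q

/-- If Q1 is not forced then there is a counterexample. -/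
def ST_bridge : Prop :=
  ∀ (P : Type) [Preorder P] [OrderTop P], Bounding P → (∀ p : P, CutData P p → False) →
    ∀ p : P, (triv P).Forces Fm.q1 Fin.elim0 p

/-- Normal form of a counterexample: `π` and the functions `n k`, which are coinitial above
the cut, are ground model functions on a countable ground model set `I`. -/
structure GoodData (P : Type) [Preorder P] (p₀ : P) where
  I : Type
  cnt : Countable I
  U : UName P p₀ I
  π : I → ℕ
  n : ℕ → I → ℕ
  anti : ∀ k t, n (k + 1) t ≤ n k t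
  fin : ∀ t, ∃ k, n k t = 0
  small : ∀ j, ∀ p ≤ p₀, ¬ U.W (fun t => {_r | π t = j}) p
  large : ∀ (f : ℕ → ℕ) (k : ℕ), U.W (fun t => {_r | f (π t) < n k t}) p₀
  cut : ∀ p ≤ p₀, ∀ z : FName P p I ℕ, (∀ k, U.W (fun t => {r | ∃ a, z.V t a r ∧ a ≤ n k t}) p) →
    ∃ q ≤ p, ∃ f : ℕ → ℕ, U.W (fun t => {r | ∃ a, z.V t a r ∧ a ≤ f (π t)}) q

def ST_push : Prop :=
  ∀ (P : Type) [Preorder P] (p₀ : P), CutData P p₀ → Nonempty (GoodData P p₀)

namespace GoodData

variable {P : Type} [Preorder P] {p₀ : P} (D : GoodData P p₀)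

theorem exists_le (f : ℕ → ℕ) (t : D.I) : ∃ k, D.n k t ≤ f (D.π t) := by
  obtain ⟨k, hk⟩ := D.fin t
  exact ⟨k, by rw [hk]; exact Nat.zero_le _⟩

open Classical in
/-- `e f t` is the least `k` with `n k t ≤ f (π t)`. -/
noncomputable def e (f : ℕ → ℕ) (t : D.I) : ℕ := Nat.find (D.exists_le f t)

end GoodData

/-- Every nonstandard function is above some function `e f`. -/
def ST_good : Prop :=
  ∀ (P : Type) [Preorder P] (p₀ : P) (D : GoodData P p₀),
    (∀ (f : ℕ → ℕ) (m : ℕ), D.U.W (fun t => {_r | m ≤ D.e f t}) p₀) ∧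
    ∀ p ≤ p₀, ∀ y : FName P p D.I ℕ,
      (∀ m, D.U.W (fun t => {r | ∃ a, y.V t a r ∧ m ≤ a}) p) →
      ∃ q ≤ p, ∃ f : ℕ → ℕ, D.U.W (fun t => {r | ∃ a, y.V t a r ∧ D.e f t ≤ a}) q

/-! ## The product of Silver forcings -/

/-- Conditions: partial functions from `K × ℕ` to `Bool`, undefined at infinitely many points
of every row, with countably many nonempty rows. -/
@[ext] structure Sil (K : Type) where
  val : K → ℕ → Option Bool
  inf : ∀ ξ, {z | val ξ z = none}.Infinite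
  cnt : {ξ | ∃ z, val ξ z ≠ none}.Countable

namespace Sil

variable {K : Type}

instance : PartialOrder (Sil K) where
  le p q := ∀ ξ z b, q.val ξ z = some b → p.val ξ z = some b
  le_refl _ _ _ _ h := h
  le_trans _ _ _ h h' ξ z b hb := h ξ z b (h' ξ z b hb)
  le_antisymm p q h h' := by
    apply Sil.ext
    funext ξ z
    apply Option.ext
    intro b
    exact ⟨fun hb => h' ξ z b hb, fun hb => h ξ z b hb⟩

theorem le_def (p q : Sil K) : p ≤ q ↔ ∀ ξ z b, q.val ξ z = some b → p.val ξ z = some b :=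
  Iff.rfl

instance : OrderTop (Sil K) where
  top := ⟨fun _ _ => none, fun _ => by simpa using Set.infinite_univ, by simp⟩
  le_top _ _ _ _ h := by cases h

/-- The rows in which `p` is defined somewhere. -/
def supp (p : Sil K) : Set K := {ξ | ∃ z, p.val ξ z ≠ none}

end Sil

/-- Fusion, with `2 ^ i` possible values for the `i`-th decision. -/
def ST_fusion : Prop :=
  ∀ (K : Type) (T : ℕ → Type) (V : ∀ i, T i → Sil K → Prop) (p : Sil K),
    (∀ i a q r, V i a q → r ≤ q → V i a r) → (∀ i, ∀ q ≤ p, ∃ r ≤ q, ∃ a, V i a r) →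
    ∃ q ≤ p, ∃ S : ∀ i, Finset (T i), (∀ i, (S i).card ≤ 2 ^ i) ∧
      ∀ i, ∀ r ≤ q, ∃ s ≤ r, ∃ a ∈ S i, V i a s

/-- A small set of rows which is closed under decisions. -/
def ST_closure : Prop :=
  ∀ (K Y : Type) (D : Y → Sil K → Prop), #Y ≤ 𝔠 → (∀ y, ∀ p : Sil K, ∃ q ≤ p, D y q) →
    ∃ A : Set K, #A ≤ 𝔠 ∧
      ∀ y, ∀ a : Sil K, a.supp ⊆ A → ∃ b ≤ a, b.supp ⊆ A ∧ D y b

/-- There is no counterexample in the extension by the product of Silver forcings. -/
def ST_silver : Prop :=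
  ∀ K : Type, 𝔠 < #K → ∀ p : Sil K, GoodData (Sil K) p → False

/-! ## The countably closed forcing -/

/-- Ground model description of a generic ultrafilter which is a counterexample, for a
forcing notion without new reals: `U X p` says that `p` forces the ground model set `X` to
be large. -/
structure NegData (P : Type) [Preorder P] where
  U : Set ℕ → P → Prop
  mono : ∀ X p q, U X p → q ≤ p → U X q
  dense : ∀ X p, (∀ q ≤ p, ∃ r ≤ q, U X r) → U X p
  up : ∀ X Y p, X ⊆ Y → U X p → U Y p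
  inter : ∀ X Y p, U X p → U Y p → U (X ∩ Y) p
  ultra : ∀ X p, ∃ q ≤ p, U X q ∨ U Xᶜ q
  empty : ∀ p, ¬ U ∅ p
  fin : ∀ i p, ¬ U {i} p
  π : ℕ → ℕ
  surj : ∀ j, ∃ i, π i = j
  small : ∀ j p, ¬ U {i | π i = j} p
  n : ℕ → ℕ → ℕ
  large : ∀ (f : ℕ → ℕ) k p, U {i | f (π i) < n k i} p
  cut : ∀ (x : ℕ → ℕ) p, (∀ k, U {i | x i < n k i} p) →
    ∃ q ≤ p, ∃ f : ℕ → ℕ, U {i | x i ≤ f (π i)} q

/-- The cut is external. -/
def ST_ext : Prop :=
  ∀ (P : Type) [Preorder P] (D : NegData P) (R : ℕ → Set ℕ) (p : P),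
    (∀ x : ℕ → ℕ, ∀ q ≤ p, D.U {i | x i ∈ R i} q →
      ∃ r ≤ q, ∃ f : ℕ → ℕ, D.U {i | x i ≤ f (D.π i)} r) →
    (∀ x f : ℕ → ℕ, (∀ i, x i ≤ f (D.π i)) → D.U {i | x i ∈ R i} p) → False

def ST_neg : Prop :=
  ∀ (P : Type) [Preorder P] [OrderTop P], Dist P → NegData P →
    ∀ p : P, (triv P).Forces (.neg Fm.q1) Fin.elim0 p

/-- `Big r S l`: extending `l` on the left by one element `r` times, with infinitely many
choices each time, one arrives in `S`. -/
def Big : ℕ → Set (List ℕ) → List ℕ → Prop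
  | 0, S, l => l ∈ S
  | r + 1, S, l => {t | Big r S (t :: l)}.Infinite

/-- Positive sets. -/
def Pos (S : Set (List ℕ)) : Prop := ∀ m, ∃ l, Big m S l

def ST_big : Prop :=
  (∀ r S T l, Big r (S ∪ T) l → Big r S l ∨ Big r T l) ∧
  (∀ r S T l, S ⊆ T → Big r S l → Big r T l) ∧
  (∀ S T, Pos (S ∪ T) → Pos S ∨ Pos T) ∧
  (∀ S T, S ⊆ T → Pos S → Pos T) ∧
  (Pos Set.univ) ∧
  (∀ S : Set (List ℕ), ∀ N : ℕ, (∀ l ∈ S, l.length ≤ N) → ¬ Pos S)

/-- The positive sets, modulo the sets which are not positive. -/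
structure JP where
  S : Set (List ℕ)
  pos : Pos S

/-- The order of `JP` needs that the sets which are not positive form an ideal. -/
def JP.LE (A B : JP) : Prop := ¬ Pos (A.S \ B.S)

end Pool.Agent.Helper64.PC
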