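import Pool.Agent.Helper64.PC.Silv

/-!
# Module DELTA: a pattern which is not the sum of two patterns of a small set
-/

namespace Pool.Agent.Helper64.PC

theorem st_delta : ST_delta := by
  classical
  intro i S hS
  by_contra hc
  push Not at hc
  -- all patterns on the block are sums
  let n := (i + 1) ^ 2 - i ^ 2
  have hn : n = 2 * i + 1 := by
    show (i + 1) ^ 2 - i ^ 2 = 2 * i + 1
    have : (i + 1) ^ 2 = i ^ 2 + (2 * i + 1) := by ring
    omega
  let ext : (Fin n → Bool) → ℕ → Bool := fun g k =>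
    if h : k - i ^ 2 < n then g ⟨k - i ^ 2, h⟩ else false
  let F : S ×ˢ S → (Fin n → Bool) := fun x m => xor (x.1.1 (i ^ 2 + m)) (x.1.2 (i ^ 2 + m))
  have hsurj : Function.Surjective F := by
    intro g
    obtain ⟨a, ha, b, hb, hab⟩ := hc (ext g)
    refine ⟨⟨(a, b), Finset.mem_product.2 ⟨ha, hb⟩⟩, ?_⟩
    funext m
    have h1 := hab (i ^ 2 + m) (Nat.le_add_right _ _) (by
      have := m.2
      have h2 : (i + 1) ^ 2 = i ^ 2 + (2 * i + 1) := by ring
      omega)
    show xor (a (i ^ 2 + m)) (b (i ^ 2 + m)) = g m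
    rw [h1]
    show (if h : i ^ 2 + m - i ^ 2 < n then g ⟨i ^ 2 + m - i ^ 2, h⟩ else false) = g m
    rw [dif_pos (by rw [Nat.add_sub_cancel_left]; exact m.2)]
    congr 1
    ext
    exact Nat.add_sub_cancel_left _ _
  have h3 := Fintype.card_le_of_surjective F hsurj
  rw [Fintype.card_fun, Fintype.card_bool, Fintype.card_fin, Fintype.card_coe,
    Finset.card_product, hn] at h3
  have h4 : S.card * S.card ≤ 2 ^ i * 2 ^ i := Nat.mul_le_mul hS hS
  have h5 : 2 ^ (2 * i + 1) = 2 * (2 ^ i * 2 ^ i) := by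
    rw [pow_succ, two_mul, pow_add]
    ring
  have h6 : 0 < 2 ^ i * 2 ^ i := by positivity
  omega

end Pool.Agent.Helper64.PC
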