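import Pool.Agent.Helper46.SP.Model

/-!
# Partition cuts of ultrapowers, inside a model of set theory

The statement Q1 of MP_90cb67_lc, read in a structure `(M, E)` for the language of set theory.
Large sets of indices are expressed by: there is a member of the ultrafilter on which ...
-/

namespace Pool.Agent.Helper64.PC

open Pool.Agent.Helper46.SP

section Models

variable {M : Type*} (E : M → M → Prop)

/-- `F` is a nonprincipal ultrafilter on `w` in `(M, E)`. -/
def IsNPUltra (w F : M) : Prop :=
  (∀ s, E s F → ∀ x, E x s → E x w) ∧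
  (∀ s t, E s F → (∀ x, E x s → E x t) → (∀ x, E x t → E x w) → E t F) ∧
  (∀ s t u, E s F → E t F → (∀ x, E x u ↔ E x s ∧ E x t) → E u F) ∧
  (∀ s t, (∀ x, E x s → E x w) → (∀ x, E x t ↔ E x w ∧ ¬ E x s) → (E s F ↔ ¬ E t F)) ∧
  (∀ x s, E x w → (∀ y, E y s ↔ y = x) → ¬ E s F)

/-- `f` is a function from `w` to `w` in `(M, E)`: a set of ordered pairs of elements of `w`,
containing exactly one pair `(x, y)` for every `x` in `w`. -/
def IsFun (w f : M) : Prop :=
  (∀ z, E z f → ∃ x y, E x w ∧ E y w ∧ IsOPair E x y z) ∧
  (∀ x, E x w → ∃ y, RelMem E f x y ∧ ∀ z, RelMem E f x z → z = y)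

/-- `q : w → w` codes a partition of `w` into small sets: the pieces are the fibres
`{i | q(i) = j}`, `j` in `w`; they are not empty and do not belong to `F`. -/
def IsSmallPartition (w F q : M) : Prop :=
  IsFun E w q ∧ (∀ j, E j w → ∃ i, RelMem E q i j) ∧
    ∀ j, E j w → ¬ ∃ s, E s F ∧ ∀ i, E i s → RelMem E q i j

/-- The class of `x : w → w` modulo `F` belongs to the partition cut of `q`: there is a
function `n` which is equal to `x` on a large set and such that, for every `j` in `w`, the
values of `n` on the piece `{i | q(i) = j}` are bounded by some `b` in `w`. -/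
def InCut (w F q x : M) : Prop :=
  ∃ n, IsFun E w n ∧ (∃ s, E s F ∧ ∀ i, E i s → ∃ v, RelMem E x i v ∧ RelMem E n i v) ∧
    ∀ j, E j w → ∃ b, E b w ∧ ∀ i v, RelMem E q i j → RelMem E n i v → E v b

/-- The class of `x` modulo `F` belongs to the internal set of the sequence
`A_i = {v | (i, v) in r}`. -/
def InInt (F r x : M) : Prop :=
  ∃ s, E s F ∧ ∀ i, E i s → ∃ v, RelMem E x i v ∧ RelMem E r i v

/-- The class of `x` modulo `F` belongs to the internal set of the sequence
`A_i = {v | (k, (i, v)) in r}`. -/
def InIntK (F r k x : M) : Prop :=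
  ∃ s, E s F ∧ ∀ i, E i s → ∃ v, RelMem E x i v ∧ ∃ z, IsOPair E i v z ∧ RelMem E r k z

/-- The partition cut of `q` is an internal set. -/
def CutInternal (w F q : M) : Prop :=
  ∃ r, ∀ x, IsFun E w x → (InCut E w F q x ↔ InInt E F r x)

/-- The partition cut of `q` is the intersection of a sequence of internal sets (indexed by
the elements of `w`). -/
def CutDelta (w F q : M) : Prop :=
  ∃ r, ∀ x, IsFun E w x → (InCut E w F q x ↔ ∀ k, E k w → InIntK E F r k x)

/-- The statement Q1: for every nonprincipal ultrafilter `F` on `ω` and every partition of `ω`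
into small sets such that the partition cut is external, the partition cut is not a
`δ`-set. -/
def Q1 : Prop :=
  ∀ w F q, IsOmega E w → IsNPUltra E w F → IsSmallPartition E w F q →
    ¬ CutInternal E w F q → ¬ CutDelta E w F q

/-- The axiom of choice: every set can be well-ordered. -/
def AC : Prop := ∀ a, ∃ w, IsWellOrderOf E a w

end Models

/-- Q1 is independent of ZFC: there are models of ZFC in which Q1 holds, and models of ZFC
in which Q1 fails. -/
def Goal : Prop :=
  (∃ (M : Type) (E : M → M → Prop), IsZF E ∧ AC E ∧ Q1 E) ∧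
  (∃ (M : Type) (E : M → M → Prop), IsZF E ∧ AC E ∧ ¬ Q1 E)

end Pool.Agent.Helper64.PC
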