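import Pool.Agent.Helper64.PC.Frc

/-!
# Module FUN: the meaning of `isFun`
-/

namespace Pool.Agent.Helper64.PC

open Pool.Agent.Helper46.SP Pool.Agent.Helper94.SP Name

theorem fmem_congr_left {P : Type} [Preorder P] {a a' b : Name P} {p : P} (h : FEq a a' p) :
    FMem a b p ↔ FMem a' b p :=
  ⟨fmem_congr h (feq_refl _ _), fmem_congr (feq_symm h) (feq_refl _ _)⟩

theorem st_fun : ST_fun := by
  intro P _ _ k v w f p hw
  show Fo (Fm.isFun w f) v p ↔ NFun (v f) p
  unfold Fm.isFun
  rw [fo_and, fo_all_omega _ v w hw]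
  constructor
  · rintro ⟨h1, h2⟩
    -- the first clause
    have h1' : ∀ z, ∀ q ≤ p, FMem z (v f) q →
        ∃ r ≤ q, ∃ n m : ℕ, FEq z (opair (num n) (num m)) r := by
      intro z q hq hz
      rw [fo_all] at h1
      have h3 := h1 z
      rw [fo_imp] at h3
      have h4 := h3 q hq hz
      rw [fo_ex] at h4
      obtain ⟨r, hr, x, hx⟩ := h4 q le_rfl
      rw [fo_ex] at hx
      obtain ⟨s, hs', y, hy⟩ := hx r le_rfl
      rw [fo_and, fo_and, fo_isOPair] at hy
      obtain ⟨hy1, hy2, hy3⟩ := hy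
      have hsp : s ≤ p := hs'.trans (hr.trans hq)
      have hx' : FMem x omega s := (fmem_iff_of_feq hw x hsp).1 hy1
      have hy' : FMem y omega s := (fmem_iff_of_feq hw y hsp).1 hy2
      rw [fmem_omega] at hx'
      obtain ⟨t, ht, n, hn⟩ := hx' s le_rfl
      rw [fmem_omega] at hy'
      obtain ⟨u, hu, m, hm⟩ := hy' t ht
      refine ⟨u, hu.trans (ht.trans (hs'.trans hr)), n, m, ?_⟩
      have h5 : FEq z (opair x y) s := hy3
      exact feq_trans (feq_mono h5 (hu.trans ht)) (opair_congr (feq_mono hn hu) hm)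
    refine ⟨h1', ?_, ?_⟩
    · intro n q hq
      have h3 := h2 n
      rw [fo_ex] at h3
      obtain ⟨r, hr, y, hy⟩ := h3 q hq
      rw [fo_and, fo_relMem] at hy
      have hy1 : FMem (opair (num n) y) (v f) r := hy.1
      obtain ⟨s, hs', n', m, he⟩ := h1' _ r (hr.trans hq) hy1
      obtain ⟨he1, he2⟩ := opair_inj he
      obtain rfl := num_inj he1
      exact ⟨s, hs'.trans hr, m, (fmem_congr_left he).1 (fmem_mono hy1 hs')⟩
    · intro n m m' q hq h h'
      have h3 := h2 n
      rw [fo_ex] at h3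
      obtain ⟨r, hr, y, hy⟩ := h3 q hq
      rw [fo_and, fo_all] at hy
      obtain ⟨_, hy2⟩ := hy
      have key : ∀ m : ℕ, FP (v f) n m r → FEq (num m) y r := by
        intro m hm
        have h4 := hy2 (num m)
        rw [fo_imp] at h4
        refine h4 r le_rfl ?_
        rw [fo_relMem]
        exact hm
      exact num_inj (feq_trans (key m (h.mono hr)) (feq_symm (key m' (h'.mono hr))))
  · rintro ⟨h1, h2, h3⟩
    constructor
    · rw [fo_all]
      intro z
      rw [fo_imp]
      intro q hq hz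
      rw [fo_ex]
      intro q' hq'
      obtain ⟨r, hr, n, m, he⟩ := h1 z q' (hq'.trans hq) (fmem_mono hz hq')
      refine ⟨r, hr, num n, ?_⟩
      rw [fo_ex]
      intro r' hr'
      refine ⟨r', le_rfl, num m, ?_⟩
      have hrp : r' ≤ p := hr'.trans (hr.trans (hq'.trans hq))
      rw [fo_and, fo_and, fo_isOPair]
      refine ⟨(fmem_iff_of_feq hw _ hrp).2 (fmem_num_omega n r'),
        (fmem_iff_of_feq hw _ hrp).2 (fmem_num_omega m r'), ?_⟩
      exact feq_mono he hr'
    · intro n
      rw [fo_ex]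
      intro q hq
      obtain ⟨r, hr, m, hm⟩ := h2 n q hq
      refine ⟨r, hr, num m, ?_⟩
      rw [fo_and, fo_relMem]
      refine ⟨hm, ?_⟩
      rw [fo_all]
      intro z
      rw [fo_imp]
      intro s hs' hz
      rw [fo_relMem] at hz
      have hz' : FMem (opair (num n) z) (v f) s := hz
      show FEq z (num m) s
      have hsp : s ≤ p := hs'.trans (hr.trans hq)
      refine feq_dense fun t ht => ?_
      obtain ⟨u, hu, n', m', he⟩ := h1 _ t (ht.trans hsp) (fmem_mono hz' ht)
      obtain ⟨he1, he2⟩ := opair_inj he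
      obtain rfl := num_inj he1
      have hm' : FP (v f) n m' u := (fmem_congr_left he).1 (fmem_mono hz' (hu.trans ht))
      obtain rfl := h3 n m m' u (hu.trans (ht.trans hsp))
        (FP.mono hm (hu.trans (ht.trans hs'))) hm'
      exact ⟨u, hu, he2⟩

end Pool.Agent.Helper64.PC
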