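import Pool.Agent.Helper64.PC.Frc

/-!
# Module GEN: the name of the generic ultrafilter
-/

namespace Pool.Agent.Helper64.PC

open Pool.Agent.Helper46.SP Pool.Agent.Helper94.SP Name

/-- Every name of a set of natural numbers is densely a ground model set. -/
theorem gen_dec {P : Type} [Preorder P] (hD : Dist P) (X : ℕ → Set P) (p : P) :
    ∃ q ≤ p, ∃ Y : Set ℕ, ∀ i, ∀ s ≤ q, (Fd (X i) s ↔ i ∈ Y) := by
  let b : FName P p ℕ Bool :=
    { V := fun i t r => (t = true ∧ Fd (X i) r) ∨ (t = false ∧ ∀ s ≤ r, ¬ Fd (X i) s)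
      mono := by
        rintro i t r s (⟨h1, h2⟩ | ⟨h1, h2⟩) hs
        · exact Or.inl ⟨h1, h2.mono hs⟩
        · exact Or.inr ⟨h1, fun u hu => h2 u (hu.trans hs)⟩
      total := by
        intro i r _
        by_cases h : ∃ s ≤ r, Fd (X i) s
        · obtain ⟨s, hs, h⟩ := h
          exact ⟨s, hs, true, Or.inl ⟨rfl, h⟩⟩
        · push Not at h
          exact ⟨r, le_rfl, false, Or.inr ⟨rfl, h⟩⟩
      uniq := by
        rintro i t t' r _ (⟨h1, h2⟩ | ⟨h1, h2⟩) (⟨h3, h4⟩ | ⟨h3, h4⟩)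
        · rw [h1, h3]
        · exact absurd h2 (h4 r le_rfl)
        · exact absurd h4 (h2 r le_rfl)
        · rw [h1, h3] }
  obtain ⟨q, hq, f, hf⟩ := hD p ℕ Bool b
  refine ⟨q, hq, {i | f i = true}, fun i s hs => ⟨fun h => ?_, fun h => ?_⟩⟩
  · exact (hf i true s hs (Or.inl ⟨rfl, h⟩)).symm
  · refine Fd.dense fun t ht => ?_
    obtain ⟨u, hu, c, hc⟩ := b.total i t ((ht.trans hs).trans hq)
    have h1 := hf i c u (hu.trans (ht.trans hs)) hc
    have h2 : f i = true := h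
    rw [h2] at h1
    rcases hc with ⟨_, h3⟩ | ⟨h3, _⟩
    · exact ⟨u, hu, h3⟩
    · rw [h1] at h3
      exact absurd h3 (by simp)

theorem feq_rho_ground {P : Type} [Preorder P] [OrderTop P] (X : ℕ → Set P) (Y : Set ℕ) (r : P) :
    FEq (rho X) (rho fun i => {_r | i ∈ Y}) r ↔ ∀ i, ∀ s ≤ r, (Fd (X i) s ↔ i ∈ Y) := by
  constructor
  · intro h i s hs
    have h1 := fmem_iff_of_feq h (num i) hs
    rw [fmem_num_rho, fmem_num_rho, fd_const] at h1
    exact h1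
  · intro h
    refine feq_ext fun x q hq => ?_
    rw [fmem_rho, fmem_rho]
    constructor
    · intro h1 t ht
      obtain ⟨u, hu, i, he, hf⟩ := h1 t ht
      exact ⟨u, hu, i, he, (fd_const _ _).2 ((h i u (hu.trans (ht.trans hq))).1 hf)⟩
    · intro h1 t ht
      obtain ⟨u, hu, i, he, hf⟩ := h1 t ht
      exact ⟨u, hu, i, he, (h i u (hu.trans (ht.trans hq))).2 ((fd_const _ _).1 hf)⟩

theorem st_gen : ST_gen := by
  intro P _ _ D hD
  have h1 : ∀ (X : ℕ → Set P) (p : P), FMem (rho X) (genF D) p ↔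
      ∀ q ≤ p, ∃ r ≤ q, ∃ Y : Set ℕ, (∀ i, ∀ s ≤ r, (Fd (X i) s ↔ i ∈ Y)) ∧ D.U Y r := by
    intro X p
    unfold genF
    rw [fmem_mk]
    constructor
    · intro h q hq
      obtain ⟨r, hr, ⟨⟨Y, s⟩, hY⟩, hrs, he⟩ := h q hq
      exact ⟨r, hr, Y, (feq_rho_ground X Y r).1 he, D.mono _ _ _ hY hrs⟩
    · intro h q hq
      obtain ⟨r, hr, Y, hY, hU⟩ := h q hq
      exact ⟨r, hr, ⟨(Y, r), hU⟩, le_rfl, (feq_rho_ground X Y r).2 hY⟩
  refine ⟨h1, fun p => ⟨?_, ?_, ?_, ?_, ?_, ?_⟩⟩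
  · intro s q _ hs x r hr hx
    have hs' := hs
    unfold genF at hs'
    rw [fmem_mk] at hs'
    refine fmem_dense fun t ht => ?_
    obtain ⟨u, hu, ⟨⟨Y, s'⟩, hY⟩, _, he⟩ := hs' t (ht.trans hr)
    have hx' : FMem x (rho fun i => {_r | i ∈ Y}) u :=
      fmem_congr (feq_refl _ _) he (fmem_mono hx (hu.trans ht))
    rw [fmem_rho] at hx'
    obtain ⟨v, hv, i, hi, _⟩ := hx' u le_rfl
    exact ⟨v, hv.trans hu, fmem_congr (feq_symm hi) (feq_refl _ _) (fmem_num_omega i v)⟩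
  · intro X Y q _ hX hXY
    rw [h1] at hX ⊢
    intro q' hq'
    obtain ⟨r, hr, Z, hZ, hU⟩ := hX q' hq'
    obtain ⟨r', hr', Z', hZ'⟩ := gen_dec hD Y r
    refine ⟨r', hr'.trans hr, Z', hZ', D.up Z Z' r' ?_ (D.mono _ _ _ hU hr')⟩
    intro i hi
    exact (hZ' i r' le_rfl).1 (hXY i r' (hr'.trans (hr.trans hq')) ((hZ i r' hr').2 hi))
  · intro X Y q _ hX hY
    rw [h1] at hX hY ⊢
    intro q' hq'
    obtain ⟨r, hr, Z, hZ, hU⟩ := hX q' hq'
    obtain ⟨r', hr', Z', hZ', hU'⟩ := hY r (hr.trans hq')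
    refine ⟨r', hr'.trans hr, Z ∩ Z', fun i s hs => ?_, D.inter Z Z' r' (D.mono _ _ _ hU hr') hU'⟩
    constructor
    · intro h
      obtain ⟨t, ht, a, ⟨ha1, ha2⟩, hta⟩ := h s le_rfl
      exact ⟨(hZ i t (ht.trans (hs.trans hr'))).1 (ha1.mono hta),
        (hZ' i t (ht.trans hs)).1 (ha2.mono hta)⟩
    · rintro ⟨h2, h3⟩
      exact Fd.of_mem (a := s) ⟨(hZ i s (hs.trans hr')).2 h2, (hZ' i s hs).2 h3⟩ le_rfl
  · intro X q _
    obtain ⟨r, hr, Z, hZ⟩ := gen_dec hD X q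
    obtain ⟨r', hr', h | h⟩ := D.ultra Z r
    · refine ⟨r', hr'.trans hr, Or.inl ((h1 _ _).2 fun s hs => ⟨s, le_rfl, Z, ?_, ?_⟩)⟩
      · exact fun i t ht => hZ i t (ht.trans (hs.trans hr'))
      · exact D.mono _ _ _ h hs
    · refine ⟨r', hr'.trans hr, Or.inr ((h1 _ _).2 fun s hs => ⟨s, le_rfl, Zᶜ, ?_, ?_⟩)⟩
      · intro i t ht
        have htr : t ≤ r := ht.trans (hs.trans hr')
        constructor
        · intro h2 hiZ
          obtain ⟨u, hu, a, ha, hua⟩ := h2 t le_rfl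
          exact ha u hua ((hZ i u (hu.trans htr)).2 hiZ)
        · intro h2
          refine Fd.of_mem (a := t) ?_ le_rfl
          intro u hu h3
          exact h2 ((hZ i u (hu.trans htr)).1 h3)
      · exact D.mono _ _ _ h hs
  · intro X q _ hX hX'
    rw [h1] at hX hX'
    obtain ⟨r, hr, Z, hZ, hU⟩ := hX q le_rfl
    obtain ⟨r', hr', Z', hZ', hU'⟩ := hX' r hr
    have h2 : Z ∩ Z' = ∅ := by
      ext i
      simp only [Set.mem_inter_iff, Set.mem_empty_iff_false, iff_false, not_and]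
      intro hi hi'
      have h3 := (hZ' i r' le_rfl).2 hi'
      obtain ⟨u, hu, a, ha, hua⟩ := h3 r' le_rfl
      exact ha u hua ((hZ i u (hu.trans hr')).2 hi)
    have h3 := D.inter Z Z' r' (D.mono _ _ _ hU hr') hU'
    rw [h2] at h3
    exact D.empty r' h3
  · intro i q _ h
    rw [h1] at h
    obtain ⟨r, _, Z, hZ, hU⟩ := h q le_rfl
    have h2 : Z = {i} := by
      ext j
      rw [← hZ j r le_rfl, fd_const]
      rfl
    rw [h2] at hU
    exact D.fin i r hU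

end Pool.Agent.Helper64.PC
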