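import Pool.Agent.Helper64.PC.SV2

/-!
# Module GOOD: every nonstandard function is above some function `e f`
-/

namespace Pool.Agent.Helper64.PC

theorem st_good : ST_good := by
  intro P _ p₀ D
  have h1 : ∀ (f : ℕ → ℕ) (m : ℕ), D.U.W (fun t => {_r | m ≤ D.e f t}) p₀ := by
    intro f m
    refine D.U.up_sub le_rfl (D.U.all le_rfl m (X := fun k t => {_r | f (D.π t) < D.n k t})
      fun k _ => D.large f k) ?_
    intro t r hr
    show m ≤ D.e f t
    by_contra hc
    rw [not_le] at hc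
    have h := hr (D.e f t) hc
    rw [fd_const] at h
    exact absurd (e_spec D f t) (not_le.2 h)
  refine ⟨h1, fun p hp y hy => ?_⟩
  let z : FName P p D.I ℕ := y.map₂ (FName.const p D.π) (fun t a _ => D.n a t)
  obtain ⟨q, hq, f, hf⟩ := D.cut p hp z (by
    intro k
    refine D.U.up_sub hp (hy k) ?_
    rintro t r ⟨a, ha, hka⟩
    exact ⟨D.n a t, ⟨a, D.π t, ha, rfl, rfl⟩, n_anti D hka⟩)
  refine ⟨q, hq, f, D.U.up_sub (hq.trans hp) hf ?_⟩
  rintro t r ⟨b, ⟨a, _, ha, _, hb⟩, hbf⟩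
  refine ⟨a, ha, ?_⟩
  by_contra hc
  rw [not_le] at hc
  have h2 := lt_of_lt_e D hc
  have hb' : b = D.n a t := hb
  omega

end Pool.Agent.Helper64.PC
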