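import Pool.Agent.Helper64.PC.Frc

/-!
# Module INT: membership in internal sets
-/

namespace Pool.Agent.Helper64.PC

open Pool.Agent.Helper46.SP Pool.Agent.Helper94.SP Name

section

variable {P : Type} [Preorder P] [OrderTop P] {k : ℕ}

theorem int_inner (v : Fin k → Name P) (r x : Fin k) (s : Name P) (i : ℕ) (q : P)
    (hx : NFun (v x) q) :
    Fo (.ex (.and (.relMem x.succ.succ.succ 1 0) (.relMem r.succ.succ.succ 1 0)))
      (Fin.cons (num i) (Fin.cons s v : Fin (k + 1) → Name P)) q ↔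
    Fd {s | ∃ a, FP (v x) i a s ∧ FP (v r) i a s} q := by
  have hA : ∀ a b, a ∈ {s | ∃ a, FP (v x) i a s ∧ FP (v r) i a s} → b ≤ a →
      b ∈ {s | ∃ a, FP (v x) i a s ∧ FP (v r) i a s} := by
    rintro a b ⟨c, h1, h2⟩ hab
    exact ⟨c, h1.mono hab, h2.mono hab⟩
  rw [fo_ex, fd_iff hA]
  constructor
  · intro h q' hq'
    obtain ⟨t, ht, y, hy⟩ := h q' hq'
    rw [fo_and, fo_relMem, fo_relMem] at hy
    have h1 : FMem (opair (num i) y) (v x) t := hy.1
    have h2 : FMem (opair (num i) y) (v r) t := hy.2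
    obtain ⟨u, hu, n, m, e1, e2, e3⟩ := hx.num_of_mem (ht.trans hq') h1 t le_rfl
    obtain rfl := num_inj e1
    exact ⟨u, hu.trans ht, m, e3, fmem_congr (opair_congr (feq_refl _ _) e2) (feq_refl _ _)
      (fmem_mono h2 hu)⟩
  · intro h q' hq'
    obtain ⟨t, ht, a, h1, h2⟩ := h q' hq'
    refine ⟨t, ht, num a, ?_⟩
    rw [fo_and, fo_relMem, fo_relMem]
    exact ⟨h1, h2⟩

theorem intK_inner (v : Fin k → Name P) (r κ x : Fin k) (s : Name P) (i K : ℕ) (q : P)
    (hx : NFun (v x) q) (hκ : FEq (v κ) (num K) q) :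
    Fo (.ex (.and (.relMem x.succ.succ.succ 1 0) (.ex (.and (.isOPair 2 1 0)
        (.relMem r.succ.succ.succ.succ κ.succ.succ.succ.succ 0)))))
      (Fin.cons (num i) (Fin.cons s v : Fin (k + 1) → Name P)) q ↔
    Fd {s | ∃ a, FP (v x) i a s ∧ FP3 (v r) K i a s} q := by
  have hA : ∀ a b, a ∈ {s | ∃ a, FP (v x) i a s ∧ FP3 (v r) K i a s} → b ≤ a →
      b ∈ {s | ∃ a, FP (v x) i a s ∧ FP3 (v r) K i a s} := by
    rintro a b ⟨c, h1, h2⟩ hab
    exact ⟨c, h1.mono hab, h2.mono hab⟩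
  rw [fo_ex, fd_iff hA]
  constructor
  · intro h q' hq'
    obtain ⟨t, ht, y, hy⟩ := h q' hq'
    rw [fo_and, fo_relMem, fo_ex] at hy
    obtain ⟨h1, h2⟩ := hy
    have h1' : FMem (opair (num i) y) (v x) t := h1
    obtain ⟨u, hu, z, hz⟩ := h2 t le_rfl
    rw [fo_and, fo_isOPair, fo_relMem] at hz
    have h3 : FEq z (opair (num i) y) u := hz.1
    have h4 : FMem (opair (v κ) z) (v r) u := hz.2
    obtain ⟨w, hw, n, m, e1, e2, e3⟩ := hx.num_of_mem (ht.trans hq') h1' u hu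
    obtain rfl := num_inj e1
    refine ⟨w, hw.trans (hu.trans ht), m, e3, ?_⟩
    have hwq : w ≤ q := hw.trans (hu.trans (ht.trans hq'))
    refine fmem_congr (opair_congr (feq_mono hκ hwq) ?_) (feq_refl _ _) (fmem_mono h4 hw)
    exact feq_trans (feq_mono h3 hw) (opair_congr (feq_refl _ _) e2)
  · intro h q' hq'
    obtain ⟨t, ht, a, h1, h2⟩ := h q' hq'
    refine ⟨t, ht, num a, ?_⟩
    rw [fo_and, fo_relMem, fo_ex]
    refine ⟨h1, fun u hu => ⟨u, le_rfl, opair (num i) (num a), ?_⟩⟩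
    rw [fo_and, fo_isOPair, fo_relMem]
    refine ⟨feq_refl _ _, ?_⟩
    have huq : u ≤ q := hu.trans (ht.trans hq')
    exact fmem_congr (opair_congr (feq_symm (feq_mono hκ huq)) (feq_refl _ _)) (feq_refl _ _)
      (fmem_mono h2 hu)

end

theorem st_int (hl : ST_large) : ST_int := by
  intro P _ _ k v F r x p hF hx
  exact hl P k v F _ _ p hF fun s i q hq => int_inner v r x s i q (hx.mono hq)

theorem st_intK (hl : ST_large) : ST_intK := by
  intro P _ _ k v F r κ x p K hF hx hκ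
  exact hl P k v F _ _ p hF fun s i q hq =>
    intK_inner v r κ x s i K q (hx.mono hq) (feq_mono hκ hq)

end Pool.Agent.Helper64.PC
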