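import Pool.Agent.Helper64.PC.SV2

/-!
# Module MOD: deciding rows with a prescribed change of the parities
-/

namespace Pool.Agent.Helper64.PC

open Set Sil

/-- The least free point of a row. -/
theorem exists_least {K : Type} (p : Sil K) (η : K) :
    ∃ a, p.val η a = none ∧ ∀ z < a, p.val η z ≠ none := by
  classical
  obtain ⟨z, hz⟩ := (p.inf η).nonempty
  exact ⟨Nat.find ⟨z, hz⟩, Nat.find_spec ⟨z, hz⟩, fun y hy => Nat.find_min ⟨z, hz⟩ hy⟩

theorem st_mod : ST_mod := by
  classical
  intro K p ξ g w hξ
  choose a ha ha' using exists_least p
  let nv : K → ℕ → Option Bool := fun η z =>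
    if h : ∃ j k, η = ξ j k ∧ k ≤ j ∧ z < g j then
      (if z = a η then some (w h.choose h.choose_spec.choose) else some false)
    else none
  have hnv : ∀ j k z, k ≤ j → z < g j →
      nv (ξ j k) z = if z = a (ξ j k) then some (w j k) else some false := by
    intro j k z hk hz
    have h : ∃ j' k', ξ j k = ξ j' k' ∧ k' ≤ j' ∧ z < g j' := ⟨j, k, rfl, hk, hz⟩
    obtain ⟨h1, h2⟩ := hξ _ _ _ _ h.choose_spec.choose_spec.1
    show (if h : ∃ j' k', ξ j k = ξ j' k' ∧ k' ≤ j' ∧ z < g j' then
      (if z = a (ξ j k) then some (w h.choose h.choose_spec.choose) else some false)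
      else none) = _
    have h3 : ∀ j' k', j = j' → k = k' → w j' k' = w j k := by
      rintro j' k' rfl rfl
      rfl
    rw [dif_pos h, h3 _ _ h1 h2]
  have hnv0 : ∀ η z, nv η z ≠ none → ∃ j k, η = ξ j k ∧ k ≤ j ∧ z < g j := by
    intro η z h
    by_contra hc
    exact h (dif_neg hc)
  let q : Sil K :=
    { val := fun η z => if p.val η z = none then nv η z else p.val η z
      inf := by
        intro η
        by_cases h : ∃ j k, η = ξ j k
        · obtain ⟨j, k, rfl⟩ := h
          have h1 : ({z | p.val (ξ j k) z = none} \ (Finset.range (g j) : Finset ℕ)).Infinite :=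
            (p.inf _).sdiff (Finset.finite_toSet _)
          refine h1.mono ?_
          rintro z ⟨hz, hz'⟩
          have hz1 : p.val (ξ j k) z = none := hz
          show (if p.val (ξ j k) z = none then nv (ξ j k) z else p.val (ξ j k) z) = none
          rw [if_pos hz1]
          by_contra hc
          obtain ⟨j', k', he, _, hlt⟩ := hnv0 _ _ hc
          obtain ⟨rfl, rfl⟩ := hξ _ _ _ _ he
          exact hz' (by simpa using hlt)
        · refine (p.inf η).mono ?_
          intro z hz
          have hz1 : p.val η z = none := hz
          show (if p.val η z = none then nv η z else p.val η z) = none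
          rw [if_pos hz1]
          by_contra hc
          obtain ⟨j', k', he, _, _⟩ := hnv0 _ _ hc
          exact h ⟨j', k', he⟩
      cnt := by
        have h1 : (Set.range fun t : ℕ × ℕ => ξ t.1 t.2).Countable := Set.countable_range _
        refine (p.cnt.union h1).mono ?_
        rintro η ⟨z, hz⟩
        have hz' : (if p.val η z = none then nv η z else p.val η z) ≠ none := hz
        by_cases h : p.val η z = none
        · rw [if_pos h] at hz'
          obtain ⟨j, k, he, _, _⟩ := hnv0 _ _ hz'
          exact Or.inr ⟨(j, k), he.symm⟩
        · exact Or.inl ⟨z, h⟩ }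
  have hqv : ∀ η z, q.val η z = if p.val η z = none then nv η z else p.val η z :=
    fun _ _ => rfl
  refine ⟨q, ?_, ?_⟩
  · intro η z b hb
    rw [hqv, if_neg (by rw [hb]; simp), hb]
  · intro j k hk N hN hfree
    obtain ⟨z0, hz0, hz0'⟩ := hfree
    have haN : a (ξ j k) < N := by
      refine lt_of_le_of_lt ?_ hz0
      by_contra hc
      rw [not_le] at hc
      exact ha' _ _ hc hz0'
    have hval : ∀ z < N, q.val (ξ j k) z = if p.val (ξ j k) z = none then
        (if z = a (ξ j k) then some (w j k) else some false) else p.val (ξ j k) z := by
      intro z hz
      rw [hqv, hnv j k z hk (lt_of_lt_of_le hz hN)]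
    refine ⟨fun z hz => ?_, ?_⟩
    · rw [hval z hz]
      split_ifs with h1 h2
      · simp
      · simp
      · exact h1
    · unfold Sil.par
      have hne : a (ξ j k) ∉ (Finset.range N).filter (fun z => p.val (ξ j k) z = some true) := by
        rw [Finset.mem_filter]
        rintro ⟨_, h⟩
        rw [ha] at h
        cases h
      cases hw : w j k with
      | false =>
        have h1 : (Finset.range N).filter (fun z => q.val (ξ j k) z = some true) =
            (Finset.range N).filter (fun z => p.val (ξ j k) z = some true) := by
          refine Finset.filter_congr fun z hz => ?_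
          rw [hval z (Finset.mem_range.1 hz), hw]
          by_cases h : p.val (ξ j k) z = none
          · rw [if_pos h, h]
            simp
          · rw [if_neg h]
        rw [h1]
        simp
      | true =>
        have h1 : (Finset.range N).filter (fun z => q.val (ξ j k) z = some true) =
            insert (a (ξ j k))
              ((Finset.range N).filter (fun z => p.val (ξ j k) z = some true)) := by
          ext z
          rw [Finset.mem_insert, Finset.mem_filter, Finset.mem_filter, Finset.mem_range]
          constructor
          · rintro ⟨hz, h⟩
            rw [hval z hz, hw] at h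
            by_cases h2 : p.val (ξ j k) z = none
            · rw [if_pos h2] at h
              by_cases h3 : z = a (ξ j k)
              · exact Or.inl h3
              · rw [if_neg h3] at h
                simp at h
            · rw [if_neg h2] at h
              exact Or.inr ⟨hz, h⟩
          · rintro (h | ⟨hz, h⟩)
            · subst h
              refine ⟨haN, ?_⟩
              rw [hval _ haN, if_pos (ha _), if_pos rfl, hw]
            · refine ⟨hz, ?_⟩
              rw [hval z hz, if_neg (by rw [h]; simp), h]
        rw [h1, Finset.card_insert_of_notMem hne, Nat.bodd_succ]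
        simp

end Pool.Agent.Helper64.PC
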