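import Pool.Agent.Helper64.PC.Fmls
import Pool.Agent.Helper64.SP.C0

/-!
# Module SAT: the formulas mean what they should
-/

namespace Pool.Agent.Helper64.PC

open Pool.Agent.Helper46.SP Pool.Agent.Helper64.SP

section

variable {M : Type*} {E : M → M → Prop} {k : ℕ}

theorem cons4 (x : M) (v : Fin (k + 4) → M) : (Fin.cons x v : Fin (k + 5) → M) 4 = v 3 := rfl

theorem sat_isNPUltra (w F : Fin k) (v : Fin k → M) :
    Sat M E (Fm.isNPUltra w F) v ↔ IsNPUltra E (v w) (v F) := by
  simp only [Fm.isNPUltra, sat_all, sat_and, sat_imp, sat_iff, sat_neg, sat_mem, sat_eq,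
    cons0, consS, cons1, cons2, cons3, IsNPUltra]

theorem sat_isFun (w f : Fin k) (v : Fin k → M) :
    Sat M E (Fm.isFun w f) v ↔ IsFun E (v w) (v f) := by
  simp only [Fm.isFun, sat_all, sat_and, sat_imp, sat_ex, sat_mem, sat_eq, sat_isOPair,
    sat_relMem, cons0, consS, cons1, cons2, cons3, IsFun]

theorem sat_isSmallPartition (w F q : Fin k) (v : Fin k → M) :
    Sat M E (Fm.isSmallPartition w F q) v ↔ IsSmallPartition E (v w) (v F) (v q) := by
  simp only [Fm.isSmallPartition, sat_all, sat_and, sat_imp, sat_ex, sat_neg, sat_mem,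
    sat_relMem, sat_isFun, cons0, consS, cons1, cons2, cons3, IsSmallPartition]

theorem sat_inCut (w F q x : Fin k) (v : Fin k → M) :
    Sat M E (Fm.inCut w F q x) v ↔ InCut E (v w) (v F) (v q) (v x) := by
  simp only [Fm.inCut, sat_all, sat_and, sat_imp, sat_ex, sat_mem,
    sat_relMem, sat_isFun, cons0, consS, cons1, cons2, cons3, cons4, InCut]

theorem sat_inInt (F r x : Fin k) (v : Fin k → M) :
    Sat M E (Fm.inInt F r x) v ↔ InInt E (v F) (v r) (v x) := by
  simp only [Fm.inInt, sat_all, sat_and, sat_imp, sat_ex, sat_mem,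
    sat_relMem, cons0, consS, cons1, cons2, InInt]

theorem sat_inIntK (F r κ x : Fin k) (v : Fin k → M) :
    Sat M E (Fm.inIntK F r κ x) v ↔ InIntK E (v F) (v r) (v κ) (v x) := by
  simp only [Fm.inIntK, sat_all, sat_and, sat_imp, sat_ex, sat_mem, sat_isOPair,
    sat_relMem, cons0, consS, cons1, cons2, InIntK]

theorem sat_cutInternal (w F q : Fin k) (v : Fin k → M) :
    Sat M E (Fm.cutInternal w F q) v ↔ CutInternal E (v w) (v F) (v q) := by
  simp only [Fm.cutInternal, sat_all, sat_imp, sat_ex, sat_iff, sat_isFun, sat_inCut,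
    sat_inInt, cons0, consS, cons1, CutInternal]

theorem sat_cutDelta (w F q : Fin k) (v : Fin k → M) :
    Sat M E (Fm.cutDelta w F q) v ↔ CutDelta E (v w) (v F) (v q) := by
  simp only [Fm.cutDelta, sat_all, sat_imp, sat_ex, sat_iff, sat_mem, sat_isFun, sat_inCut,
    sat_inIntK, cons0, consS, cons1, cons2, CutDelta]

end

theorem st_sat : ST_sat := by
  intro M E
  constructor
  · simp only [Fm.q1, sat_all, sat_imp, sat_neg, sat_isOmega, sat_isNPUltra,
      sat_isSmallPartition, sat_cutInternal, sat_cutDelta, cons0, cons1, cons2, Q1]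
  · simp only [Fm.ac, sat_all, sat_ex, sat_isWellOrderOf, cons0, cons1, AC]

end Pool.Agent.Helper64.PC
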