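import Pool.Agent.Helper64.PC.Frc

/-!
# Module SV2: no counterexample in the extension by the product of Silver forcings
-/

namespace Pool.Agent.Helper64.PC

open Cardinal Set Sil

section E

variable {P : Type} [Preorder P] {p₀ : P} (D : GoodData P p₀)

theorem e_spec (f : ℕ → ℕ) (t : D.I) : D.n (D.e f t) t ≤ f (D.π t) := by
  classical
  exact Nat.find_spec (D.exists_le f t)

theorem lt_of_lt_e {f : ℕ → ℕ} {t : D.I} {k : ℕ} (h : k < D.e f t) :
    f (D.π t) < D.n k t := by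
  classical
  exact not_le.1 (Nat.find_min (D.exists_le f t) h)

theorem n_anti {t : D.I} {k m : ℕ} (h : k ≤ m) : D.n m t ≤ D.n k t := by
  induction m, h using Nat.le_induction with
  | base => exact le_rfl
  | succ m _ ih => exact (D.anti m t).trans ih

theorem n_le_of_e_le {f : ℕ → ℕ} {t : D.I} {k : ℕ} (h : D.e f t ≤ k) :
    D.n k t ≤ f (D.π t) := (n_anti D h).trans (e_spec D f t)

theorem e_anti {f f' : ℕ → ℕ} {t : D.I} (h : f (D.π t) ≤ f' (D.π t)) :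
    D.e f' t ≤ D.e f t := by
  classical
  exact Nat.find_min' (D.exists_le f' t) ((e_spec D f t).trans h)

end E

theorem Sil.par_congr {K : Type} {p q : Sil K} {ξ : K} {N : ℕ}
    (h : ∀ z < N, p.val ξ z = q.val ξ z) : p.par ξ N = q.par ξ N := by
  classical
  unfold Sil.par
  congr 2
  refine Finset.filter_congr fun z hz => ?_
  rw [h z (Finset.mem_range.1 hz)]

theorem Sil.Dec.mono {K : Type} {p q : Sil K} {ξ : K} {N : ℕ} {b : Bool} (h : p.Dec ξ N b)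
    (hq : q ≤ p) : q.Dec ξ N b := by
  have h1 : ∀ z < N, q.val ξ z = p.val ξ z := by
    intro z hz
    obtain ⟨c, hc⟩ := Option.ne_none_iff_exists'.1 (h.1 z hz)
    rw [hc]
    exact hq ξ z c hc
  refine ⟨fun z hz => ?_, ?_⟩
  · rw [h1 z hz]
    exact h.1 z hz
  · rw [Sil.par_congr h1]
    exact h.2

theorem mk_set_le (I : Type) [Countable I] : #(Set I) ≤ 𝔠 := by
  rw [Cardinal.mk_set, ← Cardinal.two_power_aleph0]
  exact Cardinal.power_le_power_left two_ne_zero Cardinal.mk_le_aleph0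

theorem exists_rows {K : Type} (hK : 𝔠 < #K) (A : Set K) (hA : #A ≤ 𝔠) :
    ∃ ξ : ℕ → ℕ → K, (∀ j k j' k', ξ j k = ξ j' k' → j = j' ∧ k = k') ∧ ∀ j k, ξ j k ∉ A := by
  have hinf : Infinite (Aᶜ : Set K) := by
    by_contra hc
    rw [not_infinite_iff_finite] at hc
    have h1 : #K ≤ 𝔠 := by
      rw [← Cardinal.mk_sum_compl A]
      have h2 : #(Aᶜ : Set K) ≤ 𝔠 :=
        (Cardinal.mk_le_aleph0 (α := (Aᶜ : Set K))).trans Cardinal.aleph0_le_continuum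
      calc #A + #(Aᶜ : Set K) ≤ 𝔠 + 𝔠 := add_le_add hA h2
        _ = 𝔠 := Cardinal.continuum_add_self
    exact absurd h1 (not_le.2 hK)
  refine ⟨fun j k => (Infinite.natEmbedding (Aᶜ : Set K) (Nat.pair j k)).1, ?_, ?_⟩
  · intro j k j' k' h
    have h1 := (Infinite.natEmbedding (Aᶜ : Set K)).injective (Subtype.ext h)
    exact Nat.pair_eq_pair.1 h1
  · intro j k
    exact (Infinite.natEmbedding (Aᶜ : Set K) (Nat.pair j k)).2

theorem st_sv2 (hgood : ST_good) (hcl : ST_closure) (hsv1 : ST_sv1) (hmod : ST_mod)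
    (hdelta : ST_delta) : ST_silver := by
  classical
  intro K hK p₀ D
  have := D.cnt
  obtain ⟨g1, g2⟩ := hgood _ p₀ D
  obtain ⟨A, hA, hcl⟩ := hcl K (Set D.I)
    (fun Y p => D.U.W (fun t => {_r | t ∈ Y}) p ∨ ∀ q ≤ p, ¬ D.U.W (fun t => {_r | t ∈ Y}) q)
    (mk_set_le D.I) (by
      intro Y p
      by_cases h : ∃ q ≤ p, D.U.W (fun t => {_r | t ∈ Y}) q
      · obtain ⟨q, hq, h⟩ := h
        exact ⟨q, hq, Or.inl h⟩
      · push Not at h
        exact ⟨p, le_rfl, Or.inr h⟩)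
  obtain ⟨ξ, hξ, hξA⟩ := exists_rows hK A hA
  obtain ⟨p, hp, f, S, hS, hX⟩ := hsv1 K p₀ D ξ
  choose δ hδ using fun i => hdelta i (S i) (hS i)
  -- step 1
  have hπ : ∀ m, D.U.W (fun t => {_r | m ≤ D.π t}) p := by
    intro m
    induction m with
    | zero =>
      exact D.U.up_sub hp (D.U.univ hp) fun t r _ => Nat.zero_le _
    | succ m ih =>
      have h1 : D.U.W (fun t => {_r | D.π t ≠ m}) p := by
        refine D.U.of_not hp (fun q hq => D.small m q (hq.trans hp)) fun t q _ =>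
          ⟨q, le_rfl, ?_⟩
        rw [fd_const, fd_const]
        exact em _
      refine D.U.inter _ _ _ p hp ih h1 fun t q _ ha hb => ?_
      rw [fd_const] at ha hb ⊢
      omega
  obtain ⟨p1, hp1, f0, hf0⟩ := g2 p hp (FName.const p D.π) (by
    intro m
    refine D.U.up hp (hπ m) fun t q hq ha => ?_
    rw [fd_const] at ha
    exact Fd.of_mem (a := q) ⟨D.π t, rfl, ha⟩ le_rfl)
  have hp10 : p1 ≤ p₀ := hp1.trans hp
  have hf0' : D.U.W (fun t => {_r | D.e f0 t ≤ D.π t}) p1 := by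
    refine D.U.up_sub hp10 hf0 ?_
    rintro t r ⟨a, ha, hb⟩
    have ha' : a = D.π t := ha
    show D.e f0 t ≤ D.π t
    rw [← ha']
    exact hb
  -- step 2
  have hfree : ∀ j k, ∃ z, p1.val (ξ j k) z = none := fun j k => (p1.inf (ξ j k)).nonempty
  choose a ha using hfree
  let f1 : ℕ → ℕ := fun j => max (max (f j) (f0 j)) ((Finset.range (j + 1)).sup (a j))
  have hf1 : ∀ j, f j ≤ f1 j := fun j => (le_max_left _ _).trans (le_max_left _ _)
  have hf01 : ∀ j, f0 j ≤ f1 j := fun j => (le_max_right _ _).trans (le_max_left _ _)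
  have haf : ∀ j, ∀ k ≤ j, a j k ≤ f1 j := fun j k hk =>
    (Finset.le_sup (f := a j) (Finset.mem_range.2 (Nat.lt_succ_of_le hk))).trans
      (le_max_right _ _)
  -- step 3
  obtain ⟨r, hr, f2', hf2'⟩ := g2 p1 hp10
    (FName.const p1 (fun t => (Nat.sqrt (D.e f1 t) - 1) ^ 2)) (by
      intro m
      refine D.U.up hp10 (D.U.mono _ _ _ (g1 f1 ((m + 1) ^ 2)) hp10) fun t q hq ha => ?_
      rw [fd_const] at ha
      refine Fd.of_mem (a := q) ⟨(Nat.sqrt (D.e f1 t) - 1) ^ 2, rfl, ?_⟩ le_rfl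
      have h1 : m + 1 ≤ Nat.sqrt (D.e f1 t) := by
        rw [Nat.le_sqrt]
        calc (m + 1) * (m + 1) = (m + 1) ^ 2 := (sq _).symm
          _ ≤ _ := ha
      have h2 : m ≤ Nat.sqrt (D.e f1 t) - 1 := by omega
      calc m ≤ m ^ 2 := by nlinarith
        _ ≤ _ := Nat.pow_le_pow_left h2 2)
  have hr0 : r ≤ p₀ := hr.trans hp10
  let f2 : ℕ → ℕ := fun j => max (f1 j) (f2' j)
  let Y0 : Set D.I := {t | D.e f2 t ≤ (Nat.sqrt (D.e f1 t) - 1) ^ 2 ∧ 1 ≤ D.e f1 t ∧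
    D.e f1 t ≤ D.π t}
  have hY0 : D.U.W (fun t => {_r | t ∈ Y0}) r := by
    have h1 : D.U.W (fun t => {_r | D.e f2 t ≤ (Nat.sqrt (D.e f1 t) - 1) ^ 2}) r := by
      refine D.U.up_sub hr0 hf2' ?_
      rintro t q ⟨b, hb, hb'⟩
      have hb1 : b = (Nat.sqrt (D.e f1 t) - 1) ^ 2 := hb
      show D.e f2 t ≤ (Nat.sqrt (D.e f1 t) - 1) ^ 2
      rw [← hb1]
      exact (e_anti D (f := f2') (f' := f2) (le_max_right _ _)).trans hb'
    have h2 : D.U.W (fun t => {_r | 1 ≤ D.e f1 t}) r := D.U.mono _ _ _ (g1 f1 1) hr0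
    have h3 : D.U.W (fun t => {_r | D.e f1 t ≤ D.π t}) r := by
      refine D.U.up_sub hr0 (D.U.mono _ _ _ hf0' hr) ?_
      intro t q hq
      exact (e_anti D (f := f0) (f' := f1) (hf01 _)).trans hq
    have h4 := D.U.inter _ _ (fun t => {_r | 1 ≤ D.e f1 t ∧ D.e f1 t ≤ D.π t}) r hr0 h2 h3
      fun t q _ ha hb => by
        rw [fd_const] at ha hb ⊢
        exact ⟨ha, hb⟩
    exact D.U.inter _ _ _ r hr0 h1 h4 fun t q _ ha hb => by
      rw [fd_const] at ha hb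
      exact (fd_const _ _).2 ⟨ha, hb⟩
  -- step 4
  obtain ⟨b, hb, hbs, hbd⟩ := hcl Y0 (rst A r) (supp_rst A r)
  have hYb : D.U.W (fun t => {_r | t ∈ Y0}) b := by
    rcases hbd with h | h
    · exact h
    · exact absurd (D.U.mono _ _ _ hY0 (glue_le hb)) (h _ (glue_le_left hbs))
  have hbp : b ≤ rst A p1 := hb.trans (rst_mono hr)
  let p2 := glue A b p1
  have hp2 : p2 ≤ p1 := glue_le hbp
  have hY2 : D.U.W (fun t => {_r | t ∈ Y0}) p2 := D.U.mono _ _ _ hYb (glue_le_left hbs)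
  -- step 5
  let ii : D.I → ℕ := fun t => Nat.sqrt (D.e f1 t) - 1
  let YY : Bool → Set D.I := fun ε => {t | t ∈ Y0 ∧ ∀ c ∈ S (ii t), ∃ k, (ii t) ^ 2 ≤ k ∧
    k < (ii t + 1) ^ 2 ∧ c k ≠ xor (p1.par (ξ (D.π t) k) (D.n k t)) (ε && δ (ii t) k)}
  have hcover : Y0 ⊆ YY false ∪ YY true := by
    intro t ht
    by_contra hc
    rw [Set.mem_union, not_or] at hc
    obtain ⟨h1, h2⟩ := hc
    have h1' : ∃ c ∈ S (ii t), ∀ k, (ii t) ^ 2 ≤ k → k < (ii t + 1) ^ 2 →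
        c k = xor (p1.par (ξ (D.π t) k) (D.n k t)) (false && δ (ii t) k) := by
      by_contra hc
      push Not at hc
      exact h1 ⟨ht, fun c hc' => by
        obtain ⟨k, hk1, hk2, hk3⟩ := hc c hc'
        exact ⟨k, hk1, hk2, hk3⟩⟩
    have h2' : ∃ c ∈ S (ii t), ∀ k, (ii t) ^ 2 ≤ k → k < (ii t + 1) ^ 2 →
        c k = xor (p1.par (ξ (D.π t) k) (D.n k t)) (true && δ (ii t) k) := by
      by_contra hc
      push Not at hc
      exact h2 ⟨ht, fun c hc' => by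
        obtain ⟨k, hk1, hk2, hk3⟩ := hc c hc'
        exact ⟨k, hk1, hk2, hk3⟩⟩
    obtain ⟨c, hc, hc'⟩ := h1'
    obtain ⟨d, hd, hd'⟩ := h2'
    obtain ⟨k, hk1, hk2, hk3⟩ := hδ (ii t) c hc d hd
    refine hk3 ?_
    rw [hc' k hk1 hk2, hd' k hk1 hk2]
    cases p1.par (ξ (D.π t) k) (D.n k t) <;> cases δ (ii t) k <;> rfl
  -- step 6
  obtain ⟨b', hb', hbs', hbd'⟩ := hcl (YY false) (rst A p2) (supp_rst A p2)
  let p3 := glue A b' p2
  have hp3 : p3 ≤ p2 := glue_le hb'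
  have hp3b : p3 ≤ b' := glue_le_left hbs'
  have hp30 : p3 ≤ p₀ := hp3.trans (hp2.trans hp10)
  have hε : ∃ ε, D.U.W (fun t => {_r | t ∈ YY ε}) p3 := by
    rcases hbd' with h | h
    · exact ⟨false, D.U.mono _ _ _ h hp3b⟩
    · refine ⟨true, D.U.ground_or (Y := YY false) hp30 ?_ fun q hq => h q (hq.trans hp3b)⟩
      exact D.U.up_sub hp30 (D.U.mono _ _ _ hY2 hp3) fun t q hq => hcover hq
  obtain ⟨ε, hε⟩ := hε
  -- step 7
  have hval : ∀ j k z, p3.val (ξ j k) z = p1.val (ξ j k) z := by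
    intro j k z
    show (glue A b' (glue A b p1)).val (ξ j k) z = _
    rw [glue_out (hξA j k), glue_out (hξA j k)]
  have hpar : ∀ j k N, p3.par (ξ j k) N = p1.par (ξ j k) N := fun j k N =>
    Sil.par_congr fun z _ => hval j k z
  obtain ⟨q, hq, hqd⟩ := hmod K p3 ξ f2 (fun _ k => ε && δ (Nat.sqrt k) k) hξ
  have hq0 : q ≤ p₀ := hq.trans hp30
  have hqp : q ≤ p := hq.trans (hp3.trans (hp2.trans hp1))
  refine D.U.contra hq0 (D.U.mono _ _ _ hX hqp) (D.U.mono _ _ _ hε hq) ?_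
  intro t s hs h1 h2
  rw [fd_const] at h2
  obtain ⟨⟨hy1, hy2, hy3⟩, h4⟩ := h2
  obtain ⟨s', hs', a', ha', hsa⟩ := h1 s le_rfl
  have hsq : 1 ≤ Nat.sqrt (D.e f1 t) := by
    rw [Nat.le_sqrt]
    exact hy2
  have hi : ii t + 1 = Nat.sqrt (D.e f1 t) := by
    show Nat.sqrt (D.e f1 t) - 1 + 1 = _
    omega
  have hi2 : (ii t + 1) ^ 2 ≤ D.e f1 t := by
    rw [hi]
    exact Nat.sqrt_le' _
  have hef : D.e f1 t ≤ D.e f t := e_anti D (hf1 _)
  obtain ⟨c, hc, hc'⟩ := ha' (ii t) (hi2.trans hef)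
  obtain ⟨k, hk1, hk2, hk3⟩ := h4 c hc
  have hke : k < D.e f1 t := lt_of_lt_of_le hk2 hi2
  have hkπ : k ≤ D.π t := (hke.trans_le hy3).le
  have hn2 : D.n k t ≤ f2 (D.π t) := n_le_of_e_le D (hy1.trans hk1)
  have hn1 : f1 (D.π t) < D.n k t := lt_of_lt_e D hke
  have hfr : ∃ z < D.n k t, p3.val (ξ (D.π t) k) z = none :=
    ⟨a (D.π t) k, lt_of_le_of_lt (haf _ k hkπ) hn1, by rw [hval]; exact ha _ _⟩
  have h5 := (hqd (D.π t) k hkπ (D.n k t) hn2 hfr).mono (hs'.trans hs)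
  have h6 := (hc' k hk1 hk2).mono hsa
  have h7 : c k = xor (p3.par (ξ (D.π t) k) (D.n k t)) (ε && δ (Nat.sqrt k) k) := by
    rw [← h6.2, ← h5.2]
  have hsk : Nat.sqrt k = ii t := by
    refine (Nat.eq_sqrt.2 ⟨?_, ?_⟩).symm
    · calc ii t * ii t = (ii t) ^ 2 := (sq _).symm
        _ ≤ k := hk1
    · calc k < (ii t + 1) ^ 2 := hk2
        _ = _ := sq _
  rw [hpar, hsk] at h7
  exact hk3 h7

end Pool.Agent.Helper64.PC
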