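import Pool.Agent.Helper64.PC.Asm
import Pool.Agent.Helper64.PC.SAT
import Pool.Agent.Helper64.PC.SV2
import Pool.Agent.Helper64.PC.GOOD
import Pool.Agent.Helper64.PC.FUN
import Pool.Agent.Helper64.PC.DELTA
import Pool.Agent.Helper17.PC.BOUND
import Pool.Agent.Helper17.PC.FUSION
import Pool.Agent.Helper17.PC.LARGE
import Pool.Agent.Helper20.PC.DATA
import Pool.Agent.Helper20.PC.PART
import Pool.Agent.Helper34.PC.PUSH
import Pool.Agent.Helper44.PC.AC
import Pool.Agent.Helper44.PC.MAP
import Pool.Agent.Helper45.PC.STEP
import Pool.Agent.Helper50.PC.CLOSURE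
import Pool.Agent.Helper50.PC.CUT
import Pool.Agent.Helper52.PC.ULTRA
import Pool.Agent.Helper58.PC.NEG
import Pool.Agent.Helper80.PC.DIST
import Pool.Agent.Helper80.PC.EXT
import Pool.Agent.Helper86.PC.UNAME
import Pool.Agent.Helper91.PC.SV1
import Pool.Agent.Helper95.PC.BRIDGE
import Pool.Agent.Helper64.PC.GEN
import Pool.Agent.Helper64.PC.INT
import Pool.Agent.Helper64.PC.MOD

/-!
# Q1 is independent of ZFC
-/

namespace Pool.Agent.Helper64.PC

theorem all_large : ST_large := Helper17.PC.st_large
theorem all_part : ST_part := Helper20.PC.st_part st_fun all_large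
theorem all_cut : ST_cut := Helper50.PC.st_cut st_fun all_large
theorem all_int : ST_int := st_int all_large
theorem all_intK : ST_intK := st_intK all_large
theorem all_fusion : ST_fusion := Helper17.PC.st_fusion Helper45.PC.st_step

theorem goal : Goal :=
  goal_of st_sat Helper44.PC.st_ac
    (Helper95.PC.st_bridge st_fun Helper52.PC.st_ultra all_part all_cut all_int all_intK
      Helper86.PC.st_uname)
    (Helper34.PC.st_push Helper44.PC.st_map)
    (Helper17.PC.st_bound all_fusion)
    (st_sv2 st_good Helper50.PC.st_closure (Helper91.PC.st_sv1 st_good all_fusion)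
      st_mod st_delta)
    (Helper58.PC.st_neg st_fun Helper52.PC.st_ultra all_part all_cut all_int all_intK
      st_gen Helper80.PC.st_ext)
    Helper80.PC.st_dist Helper20.PC.st_data

end Pool.Agent.Helper64.PC
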