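import Pool.Agent.Helper46.SP.Spec
import Pool.Agent.Helper64.PC.Def

/-!
# The formulas
-/

namespace Pool.Agent.Helper64.PC

open Pool.Agent.Helper46.SP

namespace Fm

open Pool.Agent.Helper46.SP.Fml

variable {k : ℕ}

def isNPUltra (w F : Fin k) : Fml k :=
  and (all (imp (mem 0 F.succ) (all (imp (mem 0 1) (mem 0 w.succ.succ)))))
  (and (all (all (imp (mem 1 F.succ.succ) (imp (all (imp (mem 0 2) (mem 0 1)))
      (imp (all (imp (mem 0 1) (mem 0 w.succ.succ.succ))) (mem 0 F.succ.succ))))))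
  (and (all (all (all (imp (mem 2 F.succ.succ.succ) (imp (mem 1 F.succ.succ.succ)
      (imp (all (iff (mem 0 1) (and (mem 0 3) (mem 0 2)))) (mem 0 F.succ.succ.succ)))))))
  (and (all (all (imp (all (imp (mem 0 2) (mem 0 w.succ.succ.succ)))
      (imp (all (iff (mem 0 1) (and (mem 0 w.succ.succ.succ) (neg (mem 0 2)))))
        (iff (mem 1 F.succ.succ) (neg (mem 0 F.succ.succ)))))))
  (all (all (imp (mem 1 w.succ.succ) (imp (all (iff (mem 0 1) (eq 0 2)))
      (neg (mem 0 F.succ.succ)))))))))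

def isFun (w f : Fin k) : Fml k :=
  and (all (imp (mem 0 f.succ) (ex (ex (and (mem 1 w.succ.succ.succ)
      (and (mem 0 w.succ.succ.succ) (isOPair 1 0 2)))))))
    (all (imp (mem 0 w.succ) (ex (and (relMem f.succ.succ 1 0)
      (all (imp (relMem f.succ.succ.succ 2 0) (eq 0 1)))))))

def isSmallPartition (w F q : Fin k) : Fml k :=
  and (isFun w q) (and (all (imp (mem 0 w.succ) (ex (relMem q.succ.succ 0 1))))
    (all (imp (mem 0 w.succ) (neg (ex (and (mem 0 F.succ.succ)
      (all (imp (mem 0 1) (relMem q.succ.succ.succ 0 2)))))))))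

def inCut (w F q x : Fin k) : Fml k :=
  ex (and (isFun w.succ 0) (and
    (ex (and (mem 0 F.succ.succ) (all (imp (mem 0 1)
      (ex (and (relMem x.succ.succ.succ.succ 1 0) (relMem 3 1 0)))))))
    (all (imp (mem 0 w.succ.succ) (ex (and (mem 0 w.succ.succ.succ)
      (all (all (imp (relMem q.succ.succ.succ.succ.succ 1 3)
        (imp (relMem 4 1 0) (mem 0 2)))))))))))

def inInt (F r x : Fin k) : Fml k :=
  ex (and (mem 0 F.succ) (all (imp (mem 0 1)
    (ex (and (relMem x.succ.succ.succ 1 0) (relMem r.succ.succ.succ 1 0))))))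

def inIntK (F r κ x : Fin k) : Fml k :=
  ex (and (mem 0 F.succ) (all (imp (mem 0 1)
    (ex (and (relMem x.succ.succ.succ 1 0) (ex (and (isOPair 2 1 0)
      (relMem r.succ.succ.succ.succ κ.succ.succ.succ.succ 0))))))))

def cutInternal (w F q : Fin k) : Fml k :=
  ex (all (imp (isFun w.succ.succ 0)
    (iff (inCut w.succ.succ F.succ.succ q.succ.succ 0) (inInt F.succ.succ 1 0))))

def cutDelta (w F q : Fin k) : Fml k :=
  ex (all (imp (isFun w.succ.succ 0)
    (iff (inCut w.succ.succ F.succ.succ q.succ.succ 0)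
      (all (imp (mem 0 w.succ.succ.succ) (inIntK F.succ.succ.succ 2 0 1))))))

def q1 : Fml 0 :=
  all (all (all (imp (isOmega 2) (imp (isNPUltra 2 1) (imp (isSmallPartition 2 1 0)
    (imp (neg (cutInternal 2 1 0)) (neg (cutDelta 2 1 0))))))))

def ac : Fml 0 := all (ex (isWellOrderOf 1 0))

end Fm

/-- The formulas mean what they should. -/
def ST_sat : Prop :=
  ∀ (M : Type) (E : M → M → Prop),
    (Sat M E Fm.q1 Fin.elim0 ↔ Q1 E) ∧ (Sat M E Fm.ac Fin.elim0 ↔ AC E)

end Pool.Agent.Helper64.PC
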