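import Pool.Agent.Helper64.PC.UApi

/-!
# The forcing relation of the trivial system
-/

namespace Pool.Agent.Helper64.PC

open Pool.Agent.Helper46.SP Pool.Agent.Helper94.SP Name

section

variable {P : Type} [Preorder P] [OrderTop P] {k : ℕ}

/-- The forcing relation of the full extension. -/
abbrev Fo (φ : Fml k) (v : Fin k → Name P) (p : P) : Prop := (triv P).Forces φ v p

theorem fo_mem (i j : Fin k) (v : Fin k → Name P) (p : P) :
    Fo (.mem i j) v p ↔ FMem (v i) (v j) p := Iff.rfl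

theorem fo_eq (i j : Fin k) (v : Fin k → Name P) (p : P) :
    Fo (.eq i j) v p ↔ FEq (v i) (v j) p := Iff.rfl

theorem fo_neg (φ : Fml k) (v : Fin k → Name P) (p : P) :
    Fo (.neg φ) v p ↔ ∀ q ≤ p, ¬ Fo φ v q := Iff.rfl

theorem fo_and (φ ψ : Fml k) (v : Fin k → Name P) (p : P) :
    Fo (.and φ ψ) v p ↔ Fo φ v p ∧ Fo ψ v p := Iff.rfl

theorem fo_all (φ : Fml (k + 1)) (v : Fin k → Name P) (p : P) :
    Fo (.all φ) v p ↔ ∀ x : Name P, Fo φ (Fin.cons x v) p :=
  ⟨fun h x => h x (hs x), fun h x _ => h x⟩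

theorem fo_imp (φ ψ : Fml k) (v : Fin k → Name P) (p : P) :
    Fo (.imp φ ψ) v p ↔ ∀ q ≤ p, Fo φ v q → Fo ψ v q := forces_imp (triv P) φ ψ v p

theorem fo_or (φ ψ : Fml k) (v : Fin k → Name P) (p : P) :
    Fo (.or φ ψ) v p ↔ ∀ q ≤ p, ∃ r ≤ q, Fo φ v r ∨ Fo ψ v r := forces_or (triv P) φ ψ v p

theorem fo_iff (φ ψ : Fml k) (v : Fin k → Name P) (p : P) :
    Fo (.iff φ ψ) v p ↔ ∀ q ≤ p, (Fo φ v q ↔ Fo ψ v q) := forces_iff (triv P) φ ψ v p

theorem fo_ex (φ : Fml (k + 1)) (v : Fin k → Name P) (p : P) :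
    Fo (.ex φ) v p ↔ ∀ q ≤ p, ∃ r ≤ q, ∃ x : Name P, Fo φ (Fin.cons x v) r := by
  rw [Fo, forces_ex]
  constructor
  · intro h q hq
    obtain ⟨r, hr, x, _, hx⟩ := h q hq
    exact ⟨r, hr, x, hx⟩
  · intro h q hq
    obtain ⟨r, hr, x, hx⟩ := h q hq
    exact ⟨r, hr, x, hs x, hx⟩

theorem fo_mono (φ : Fml k) (v : Fin k → Name P) {p q : P} (h : Fo φ v p) (hq : q ≤ p) :
    Fo φ v q := forces_mono (triv P) φ v h hq

theorem fo_dense (φ : Fml k) (v : Fin k → Name P) {p : P} (h : ∀ q ≤ p, ∃ r ≤ q, Fo φ v r) :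
    Fo φ v p := forces_dense (triv P) φ v h

theorem fo_congr (φ : Fml k) (v w : Fin k → Name P) {p : P} (hv : ∀ i, FEq (v i) (w i) p)
    (h : Fo φ v p) : Fo φ w p := forces_congr (triv P) φ v w hv h

theorem fo_isPair (v : Fin k → Name P) (x y z : Fin k) (p : P) :
    Fo (.isPair x y z) v p ↔ FEq (v z) (Name.pair (v x) (v y)) p :=
  forces_isPair (triv P) v (fun _ => hs _) x y z p

theorem fo_isOPair (v : Fin k → Name P) (x y z : Fin k) (p : P) :
    Fo (.isOPair x y z) v p ↔ FEq (v z) (opair (v x) (v y)) p :=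
  forces_isOPair (triv P) v (fun _ => hs _) x y z p

theorem fo_relMem (v : Fin k → Name P) (r x y : Fin k) (p : P) :
    Fo (.relMem r x y) v p ↔ FMem (opair (v x) (v y)) (v r) p :=
  forces_relMem (triv P) v (fun _ => hs _) r x y p

theorem fo_isOmega (v : Fin k → Name P) (w : Fin k) (p : P) :
    Fo (.isOmega w) v p ↔ FEq (v w) omega p :=
  forces_isOmega (triv P) v (fun _ => hs _) w p

/-- changing the value of the last variable -/
theorem fo_cons_congr (φ : Fml (k + 1)) (v : Fin k → Name P) {x y : Name P} {p : P}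
    (h : FEq x y p) (hx : Fo φ (Fin.cons x v) p) : Fo φ (Fin.cons y v) p := by
  refine fo_congr φ _ _ (fun i => ?_) hx
  refine Fin.cases ?_ (fun j => ?_) i
  · exact h
  · exact feq_refl _ _

theorem fmem_iff_of_feq {a b : Name P} {p : P} (h : FEq a b p) (x : Name P) {q : P}
    (hq : q ≤ p) : FMem x a q ↔ FMem x b q :=
  ⟨fmem_congr (feq_refl _ _) (feq_mono h hq), fmem_congr (feq_refl _ _)
    (feq_symm (feq_mono h hq))⟩

theorem fmem_num_omega (n : ℕ) (p : P) : FMem (num n) (omega : Name P) p :=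
  (fmem_omega _ _).2 fun q _ => ⟨q, le_rfl, n, feq_refl _ _⟩

/-- Quantification over the elements of `ω`. -/
theorem fo_all_omega (φ : Fml (k + 1)) (v : Fin k → Name P) (w : Fin k) {p : P}
    (hw : FEq (v w) omega p) :
    Fo (.all (.imp (.mem 0 w.succ) φ)) v p ↔ ∀ n : ℕ, Fo φ (Fin.cons (num n) v) p := by
  rw [fo_all]
  constructor
  · intro h n
    have h1 := h (num n)
    rw [fo_imp] at h1
    refine h1 p le_rfl ?_
    exact (fmem_iff_of_feq hw _ le_rfl).2 (fmem_num_omega n p)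
  · intro h x
    rw [fo_imp]
    intro q hq hx
    have hx' : FMem x omega q := (fmem_iff_of_feq hw x hq).1 hx
    rw [fmem_omega] at hx'
    refine fo_dense _ _ fun r hr => ?_
    obtain ⟨s, hs', n, hn⟩ := hx' r hr
    exact ⟨s, hs', fo_cons_congr φ v (feq_symm hn) (fo_mono _ _ (h n) (hs'.trans (hr.trans hq)))⟩

theorem fo_ex_omega (φ : Fml (k + 1)) (v : Fin k → Name P) (w : Fin k) {p : P}
    (hw : FEq (v w) omega p) :
    Fo (.ex (.and (.mem 0 w.succ) φ)) v p ↔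
      ∀ q ≤ p, ∃ r ≤ q, ∃ n : ℕ, Fo φ (Fin.cons (num n) v) r := by
  rw [fo_ex]
  constructor
  · intro h q hq
    obtain ⟨r, hr, x, hx1, hx2⟩ := h q hq
    have hx' : FMem x omega r := (fmem_iff_of_feq hw x (hr.trans hq)).1 hx1
    rw [fmem_omega] at hx'
    obtain ⟨s, hs', n, hn⟩ := hx' r le_rfl
    exact ⟨s, hs'.trans hr, n, fo_cons_congr φ v hn (fo_mono _ _ hx2 hs')⟩
  · intro h q hq
    obtain ⟨r, hr, n, hn⟩ := h q hq
    refine ⟨r, hr, num n, ?_, hn⟩
    exact (fmem_iff_of_feq hw _ (hr.trans hq)).2 (fmem_num_omega n r)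

/-- `(x, y) ∈ f` for a function `f` from `ω` to `ω`: then `x` and `y` are numerals. -/
theorem NFun.num_of_mem {f : Name P} {p : P} (hf : NFun f p) {x y : Name P} {q : P} (hq : q ≤ p)
    (h : FMem (opair x y) f q) :
    ∀ r ≤ q, ∃ s ≤ r, ∃ n m : ℕ, FEq x (num n) s ∧ FEq y (num m) s ∧ FP f n m s := by
  intro r hr
  obtain ⟨s, hs', n, m, he⟩ := hf.1 (opair x y) r (hr.trans hq) (fmem_mono h hr)
  obtain ⟨h1, h2⟩ := opair_inj he
  refine ⟨s, hs', n, m, h1, h2, ?_⟩
  exact fmem_congr he (feq_refl _ _) (fmem_mono h (hs'.trans hr))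

theorem NFun.mono {f : Name P} {p q : P} (hf : NFun f p) (hq : q ≤ p) : NFun f q :=
  ⟨fun z r hr => hf.1 z r (hr.trans hq), fun n r hr => hf.2.1 n r (hr.trans hq),
    fun n m m' r hr => hf.2.2 n m m' r (hr.trans hq)⟩

theorem NUltra.mono {F : Name P} {p q : P} (hF : NUltra F p) (hq : q ≤ p) : NUltra F q :=
  ⟨fun s r hr => hF.1 s r (hr.trans hq), fun X Y r hr => hF.2.1 X Y r (hr.trans hq),
    fun X Y r hr => hF.2.2.1 X Y r (hr.trans hq), fun X r hr => hF.2.2.2.1 X r (hr.trans hq),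
    fun X r hr => hF.2.2.2.2.1 X r (hr.trans hq), fun i r hr => hF.2.2.2.2.2 i r (hr.trans hq)⟩

theorem FP.mono {f : Name P} {n m : ℕ} {p q : P} (h : FP f n m p) (hq : q ≤ p) : FP f n m q :=
  fmem_mono h hq

theorem FP3.mono {f : Name P} {k n m : ℕ} {p q : P} (h : FP3 f k n m p) (hq : q ≤ p) :
    FP3 f k n m q := fmem_mono h hq

/-- Every name of a subset of `ω` is (forced to be) of the form `rho X`. -/
theorem feq_rho {s : Name P} {p : P} (h : ∀ x, ∀ r ≤ p, FMem x s r → FMem x omega r) :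
    FEq s (rho fun i => {r | FMem (num i) s r}) p := by
  refine feq_ext fun x q hq => ?_
  rw [fmem_rho]
  constructor
  · intro hx r hr
    have h1 := h x r (hr.trans hq) (fmem_mono hx hr)
    rw [fmem_omega] at h1
    obtain ⟨t, ht, i, hi⟩ := h1 r le_rfl
    refine ⟨t, ht, i, hi, Fd.of_mem (a := t) ?_ le_rfl⟩
    exact fmem_congr hi (feq_refl _ _) (fmem_mono hx (ht.trans hr))
  · intro hx
    refine fmem_dense fun r hr => ?_
    obtain ⟨t, ht, i, hi, hf⟩ := hx r hr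
    obtain ⟨u, hu, a, ha, hua⟩ := hf t le_rfl
    exact ⟨u, hu.trans ht, fmem_congr (feq_symm (feq_mono hi hu)) (feq_refl _ _)
      (fmem_mono ha hua)⟩

/-- The canonical name of a function is (forced to be) a function. -/
theorem nfun_relN {p : P} (x : FName P p ℕ ℕ) : NFun (relN fun i a => {r | x.V i a r}) p := by
  refine ⟨fun z q _ hz => ?_, fun n q hq => ?_, fun n m m' q hq h h' => ?_⟩
  · rw [fmem_relN] at hz
    obtain ⟨r, hr, n, m, he, _⟩ := hz q le_rfl
    exact ⟨r, hr, n, m, he⟩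
  · obtain ⟨r, hr, m, hm⟩ := x.total n q hq
    exact ⟨r, hr, m, (fp_relN _ _ _ _).2 (Fd.of_mem (a := r) hm le_rfl)⟩
  · rw [fp_relN] at h h'
    obtain ⟨r, hr, a, ha, hra⟩ := h q le_rfl
    obtain ⟨s, hs', b, hb, hsb⟩ := h' r hr
    exact x.uniq n m m' s (hs'.trans (hr.trans hq))
      (x.mono _ _ _ _ ha (hs'.trans hra)) (x.mono _ _ _ _ hb hsb)

/-- The name of a function in the sense of `FName`. -/
def NFun.toFName {f : Name P} {p : P} (hf : NFun f p) : FName P p ℕ ℕ where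
  V i a r := FP f i a r
  mono _ _ _ _ h hq := fmem_mono h hq
  total i q hq := hf.2.1 i q hq
  uniq i a b q hq h h' := hf.2.2 i a b q hq h h'

end

end Pool.Agent.Helper64.PC
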