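import Pool.Agent.Helper64.PC.Core

/-!
# The ideal of sets which are not positive, the preorder `JP`
-/

namespace Pool.Agent.Helper64.PC

open Set

theorem big_mono {r : ℕ} {S T : Set (List ℕ)} {l : List ℕ} (h : S ⊆ T) (hb : Big r S l) :
    Big r T l := by
  induction r generalizing l with
  | zero => exact h hb
  | succ r ih => exact Set.Infinite.mono (fun t ht => ih ht) hb

theorem big_union {r : ℕ} {S T : Set (List ℕ)} {l : List ℕ} (hb : Big r (S ∪ T) l) :
    Big r S l ∨ Big r T l := by
  induction r generalizing l with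
  | zero => exact hb
  | succ r ih =>
    have h : ({t | Big r S (t :: l)} ∪ {t | Big r T (t :: l)}).Infinite :=
      Set.Infinite.mono (fun t ht => ih ht) hb
    exact Set.infinite_union.1 h

theorem big_succ {r : ℕ} {S : Set (List ℕ)} {l : List ℕ} (hb : Big (r + 1) S l) :
    ∃ t, Big r S (t :: l) := Set.Infinite.nonempty hb

theorem big_le {r m : ℕ} (h : r ≤ m) {S : Set (List ℕ)} {l : List ℕ} (hb : Big m S l) :
    ∃ l', Big r S l' := by
  induction m, h using Nat.le_induction generalizing l with
  | base => exact ⟨l, hb⟩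
  | succ m _ ih =>
    obtain ⟨t, ht⟩ := big_succ hb
    exact ih ht

theorem big_mem {r : ℕ} {S : Set (List ℕ)} {l : List ℕ} (hb : Big r S l) :
    ∃ s : List ℕ, s.length = r ∧ s ++ l ∈ S := by
  induction r generalizing l with
  | zero => exact ⟨[], rfl, hb⟩
  | succ r ih =>
    obtain ⟨t, ht⟩ := big_succ hb
    obtain ⟨s, hs, hm⟩ := ih ht
    exact ⟨s ++ [t], by simp [hs], by simpa using hm⟩

theorem big_univ (r : ℕ) (l : List ℕ) : Big r Set.univ l := by
  induction r generalizing l with
  | zero => trivial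
  | succ r ih =>
    have : {t | Big r Set.univ (t :: l)} = Set.univ := by
      ext t
      simp [ih]
    show Set.Infinite _
    rw [this]
    exact Set.infinite_univ

theorem pos_mono {S T : Set (List ℕ)} (h : S ⊆ T) (hp : Pos S) : Pos T :=
  fun m => (hp m).imp fun _ hl => big_mono h hl

theorem pos_union {S T : Set (List ℕ)} (h : Pos (S ∪ T)) : Pos S ∨ Pos T := by
  by_contra hc
  rw [not_or] at hc
  obtain ⟨h1, h2⟩ := hc
  simp only [Pos, not_forall, not_exists] at h1 h2
  obtain ⟨m1, h1⟩ := h1
  obtain ⟨m2, h2⟩ := h2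
  obtain ⟨l, hl⟩ := h (max m1 m2)
  rcases big_union hl with h3 | h3
  · obtain ⟨l', h4⟩ := big_le (le_max_left m1 m2) h3
    exact h1 l' h4
  · obtain ⟨l', h4⟩ := big_le (le_max_right m1 m2) h3
    exact h2 l' h4

theorem pos_univ : Pos Set.univ := fun m => ⟨[], big_univ m []⟩

theorem not_pos_of_length {S : Set (List ℕ)} (N : ℕ) (h : ∀ l ∈ S, l.length ≤ N) : ¬ Pos S := by
  intro hp
  obtain ⟨l, hl⟩ := hp (N + 1)
  obtain ⟨s, hs, hm⟩ := big_mem hl
  have := h _ hm
  simp only [List.length_append] at this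
  omega

instance : Preorder JP where
  le := JP.LE
  le_refl A := by
    intro h
    obtain ⟨l, hl⟩ := h 0
    exact hl.2 hl.1
  le_trans A B C h h' := by
    intro hp
    have h1 : A.S \ C.S ⊆ (A.S \ B.S) ∪ (B.S \ C.S) := by
      intro x hx
      by_cases hb : x ∈ B.S
      · exact Or.inr ⟨hb, hx.2⟩
      · exact Or.inl ⟨hx.1, hb⟩
    rcases pos_union (pos_mono h1 hp) with h2 | h2
    · exact h h2
    · exact h' h2

theorem JP.le_def (A B : JP) : A ≤ B ↔ ¬ Pos (A.S \ B.S) := Iff.rfl

instance : OrderTop JP where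
  top := ⟨Set.univ, pos_univ⟩
  le_top A := by
    intro h
    obtain ⟨l, hl⟩ := h 0
    exact hl.2 trivial

/-- `JP` adds no new functions. -/
def ST_dist : Prop := Dist JP

/-- The generic ultrafilter of `JP`. -/
def ST_data : Prop := Nonempty (NegData JP)

end Pool.Agent.Helper64.PC
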