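import Pool.Agent.Helper64.PC.Jp
import Pool.Agent.Helper94.SP.B3

/-!
# Names of sets of natural numbers and of relations
-/

namespace Pool.Agent.Helper64.PC

open Pool.Agent.Helper46.SP Pool.Agent.Helper94.SP Name Set

variable {P : Type} [Preorder P]

theorem Fd.mono {A : Set P} {p q : P} (h : Fd A p) (hq : q ≤ p) : Fd A q :=
  fun r hr => h r (hr.trans hq)

theorem Fd.dense {A : Set P} {p : P} (h : ∀ q ≤ p, ∃ r ≤ q, Fd A r) : Fd A p := by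
  intro q hq
  obtain ⟨r, hr, h1⟩ := h q hq
  obtain ⟨s, hs, a, ha, hsa⟩ := h1 r le_rfl
  exact ⟨s, hs.trans hr, a, ha, hsa⟩

theorem Fd.of_mem {A : Set P} {p a : P} (h : a ∈ A) (hp : p ≤ a) : Fd A p :=
  fun q hq => ⟨q, le_rfl, a, h, hq.trans hp⟩

/-- For a downward closed set. -/
theorem fd_iff {A : Set P} (hA : ∀ p q, p ∈ A → q ≤ p → q ∈ A) {p : P} :
    Fd A p ↔ ∀ q ≤ p, ∃ r ≤ q, r ∈ A := by
  constructor
  · intro h q hq
    obtain ⟨r, hr, a, ha, hra⟩ := h q hq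
    exact ⟨r, hr, hA a r ha hra⟩
  · intro h q hq
    obtain ⟨r, hr, hr'⟩ := h q hq
    exact ⟨r, hr, r, hr', le_rfl⟩

/-- For a regular set. -/
theorem fd_iff_mem {A : Set P} (hA : ∀ p q, p ∈ A → q ≤ p → q ∈ A)
    (hA' : ∀ p, (∀ q ≤ p, ∃ r ≤ q, r ∈ A) → p ∈ A) {p : P} : Fd A p ↔ p ∈ A := by
  rw [fd_iff hA]
  exact ⟨hA' p, fun h q hq => ⟨q, le_rfl, hA p q h hq⟩⟩

theorem fd_fd {A : Set P} {p : P} : Fd {r | Fd A r} p ↔ Fd A p :=
  fd_iff_mem (fun _ _ h hq => Fd.mono h hq) (fun _ h => Fd.dense h)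

theorem act_eq (g : Tg) (a : Name P) : act g a = a := by
  induction a with
  | mk ι A B ih =>
    show Name.mk ι (fun i => act g (A i)) (fun i => g • B i) = _
    congr 1
    funext i
    exact ih i

variable [OrderTop P]

/-- Every name is hereditarily symmetric for the trivial system. -/
theorem hs (a : Name P) : (triv P).IsHS a := by
  induction a with
  | mk ι A B ih =>
    rw [isHS_mk]
    exact ⟨ih, ⊤, trivial, fun g _ => by rw [act_eq]; exact feq_refl _ _⟩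

/-- The name `{(i, p) : p ∈ X i}` of a set of natural numbers. -/
def rho (X : ℕ → Set P) : Name P := Name.realName (fun p : P => p) X

/-- `p` forces `(n, m) ∈ f`. -/
def FP (f : Name P) (n m : ℕ) (p : P) : Prop := FMem (opair (num n) (num m)) f p

/-- `p` forces `(k, (n, m)) ∈ r`. -/
def FP3 (r : Name P) (k n m : ℕ) (p : P) : Prop :=
  FMem (opair (num k) (opair (num n) (num m))) r p

/-- The name `{((n, m), p) : p ∈ V n m}`. -/
def relN (V : ℕ → ℕ → Set P) : Name P :=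
  Name.mk {t : ℕ × ℕ × P // t.2.2 ∈ V t.1 t.2.1}
    (fun t => opair (num t.1.1) (num t.1.2.1)) (fun t => t.1.2.2)

/-- The name `{((k, (n, m)), p) : p ∈ V k n m}`. -/
def relN3 (V : ℕ → ℕ → ℕ → Set P) : Name P :=
  Name.mk {t : ℕ × ℕ × ℕ × P // t.2.2.2 ∈ V t.1 t.2.1 t.2.2.1}
    (fun t => opair (num t.1.1) (opair (num t.1.2.1) (num t.1.2.2.1))) (fun t => t.1.2.2.2)

theorem fmem_rho (x : Name P) (X : ℕ → Set P) (p : P) :
    FMem x (rho X) p ↔ ∀ q ≤ p, ∃ r ≤ q, ∃ i, FEq x (num i) r ∧ Fd (X i) r := by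
  unfold rho Name.realName
  rw [fmem_mk]
  constructor
  · intro h q hq
    obtain ⟨r, hr, ⟨i, a, ha⟩, hra, he⟩ := h q hq
    exact ⟨r, hr, i, he, Fd.of_mem ha hra⟩
  · intro h q hq
    obtain ⟨r, hr, i, he, hf⟩ := h q hq
    obtain ⟨s, hs, a, ha, hsa⟩ := hf r le_rfl
    exact ⟨s, hs.trans hr, ⟨i, a, ha⟩, hsa, feq_mono he hs⟩

theorem fmem_num_rho (i : ℕ) (X : ℕ → Set P) (p : P) :
    FMem (num i) (rho X) p ↔ Fd (X i) p := by
  rw [fmem_rho]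
  constructor
  · intro h
    refine Fd.dense fun q hq => ?_
    obtain ⟨r, hr, j, he, hf⟩ := h q hq
    obtain rfl := num_inj he
    exact ⟨r, hr, hf⟩
  · intro h q hq
    exact ⟨q, le_rfl, i, feq_refl _ _, h.mono hq⟩

theorem fmem_relN (x : Name P) (V : ℕ → ℕ → Set P) (p : P) :
    FMem x (relN V) p ↔
      ∀ q ≤ p, ∃ r ≤ q, ∃ n m, FEq x (opair (num n) (num m)) r ∧ Fd (V n m) r := by
  unfold relN
  rw [fmem_mk]
  constructor
  · intro h q hq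
    obtain ⟨r, hr, ⟨⟨n, m, a⟩, ha⟩, hra, he⟩ := h q hq
    exact ⟨r, hr, n, m, he, Fd.of_mem ha hra⟩
  · intro h q hq
    obtain ⟨r, hr, n, m, he, hf⟩ := h q hq
    obtain ⟨s, hs, a, ha, hsa⟩ := hf r le_rfl
    exact ⟨s, hs.trans hr, ⟨⟨n, m, a⟩, ha⟩, hsa, feq_mono he hs⟩

theorem fp_relN (V : ℕ → ℕ → Set P) (n m : ℕ) (p : P) : FP (relN V) n m p ↔ Fd (V n m) p := by
  unfold FP
  rw [fmem_relN]
  constructor
  · intro h
    refine Fd.dense fun q hq => ?_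
    obtain ⟨r, hr, n', m', he, hf⟩ := h q hq
    obtain ⟨h1, h2⟩ := opair_inj he
    obtain rfl := num_inj h1
    obtain rfl := num_inj h2
    exact ⟨r, hr, hf⟩
  · intro h q hq
    exact ⟨q, le_rfl, n, m, feq_refl _ _, h.mono hq⟩

theorem fmem_relN3 (x : Name P) (V : ℕ → ℕ → ℕ → Set P) (p : P) :
    FMem x (relN3 V) p ↔ ∀ q ≤ p, ∃ r ≤ q, ∃ k n m,
      FEq x (opair (num k) (opair (num n) (num m))) r ∧ Fd (V k n m) r := by
  unfold relN3
  rw [fmem_mk]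
  constructor
  · intro h q hq
    obtain ⟨r, hr, ⟨⟨k, n, m, a⟩, ha⟩, hra, he⟩ := h q hq
    exact ⟨r, hr, k, n, m, he, Fd.of_mem ha hra⟩
  · intro h q hq
    obtain ⟨r, hr, k, n, m, he, hf⟩ := h q hq
    obtain ⟨s, hs, a, ha, hsa⟩ := hf r le_rfl
    exact ⟨s, hs.trans hr, ⟨⟨k, n, m, a⟩, ha⟩, hsa, feq_mono he hs⟩

theorem fp3_relN3 (V : ℕ → ℕ → ℕ → Set P) (k n m : ℕ) (p : P) :
    FP3 (relN3 V) k n m p ↔ Fd (V k n m) p := by
  unfold FP3
  rw [fmem_relN3]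
  constructor
  · intro h
    refine Fd.dense fun q hq => ?_
    obtain ⟨r, hr, k', n', m', he, hf⟩ := h q hq
    obtain ⟨h1, h2⟩ := opair_inj he
    obtain ⟨h3, h4⟩ := opair_inj h2
    obtain rfl := num_inj h1
    obtain rfl := num_inj h3
    obtain rfl := num_inj h4
    exact ⟨r, hr, hf⟩
  · intro h q hq
    exact ⟨q, le_rfl, k, n, m, feq_refl _ _, h.mono hq⟩

/-! ## The meaning of the formulas (exact statements of modules) -/

/-- `p` forces: `f` is a function from `ω` to `ω`. -/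
def NFun (f : Name P) (p : P) : Prop :=
  (∀ z, ∀ q ≤ p, FMem z f q → ∃ r ≤ q, ∃ n m : ℕ, FEq z (opair (num n) (num m)) r) ∧
  (∀ n : ℕ, ∀ q ≤ p, ∃ r ≤ q, ∃ m : ℕ, FP f n m r) ∧
  (∀ n m m' : ℕ, ∀ q ≤ p, FP f n m q → FP f n m' q → m = m')

/-- `p` forces: `F` is a nonprincipal ultrafilter on `ω`. -/
def NUltra (F : Name P) (p : P) : Prop :=
  (∀ s, ∀ q ≤ p, FMem s F q → ∀ x, ∀ r ≤ q, FMem x s r → FMem x omega r) ∧
  (∀ X Y : ℕ → Set P, ∀ q ≤ p, FMem (rho X) F q →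
    (∀ i, ∀ r ≤ q, Fd (X i) r → Fd (Y i) r) → FMem (rho Y) F q) ∧
  (∀ X Y : ℕ → Set P, ∀ q ≤ p, FMem (rho X) F q → FMem (rho Y) F q →
    FMem (rho fun i => {r | Fd (X i) r ∧ Fd (Y i) r}) F q) ∧
  (∀ X : ℕ → Set P, ∀ q ≤ p,
    ∃ r ≤ q, FMem (rho X) F r ∨ FMem (rho fun i => {r | ∀ s ≤ r, ¬ Fd (X i) s}) F r) ∧
  (∀ X : ℕ → Set P, ∀ q ≤ p, FMem (rho X) F q →
    ¬ FMem (rho fun i => {r | ∀ s ≤ r, ¬ Fd (X i) s}) F q) ∧
  (∀ i : ℕ, ∀ q ≤ p, ¬ FMem (rho fun j => {_r | j = i}) F q)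

/-- `p` forces that `x` belongs to the partition cut. -/
def NCut (F q x : Name P) (p : P) : Prop :=
  ∀ p' ≤ p, ∃ r ≤ p', ∃ n : Name P, NFun n r ∧
    FMem (rho fun i => {s | ∃ a, FP x i a s ∧ FP n i a s}) F r ∧
    ∀ j : ℕ, ∀ s ≤ r, ∃ t ≤ s, ∃ b : ℕ, ∀ i a : ℕ, ∀ t' ≤ t, FP q i j t' → FP n i a t' → a < b

end Pool.Agent.Helper64.PC

namespace Pool.Agent.Helper64.PC

open Pool.Agent.Helper46.SP Pool.Agent.Helper94.SP Name Set

def ST_fun : Prop :=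
  ∀ (P : Type) [Preorder P] [OrderTop P] (k : ℕ) (v : Fin k → Name P) (w f : Fin k) (p : P),
    FEq (v w) omega p → ((triv P).Forces (Fm.isFun w f) v p ↔ NFun (v f) p)

def ST_ultra : Prop :=
  ∀ (P : Type) [Preorder P] [OrderTop P] (k : ℕ) (v : Fin k → Name P) (w F : Fin k) (p : P),
    FEq (v w) omega p → ((triv P).Forces (Fm.isNPUltra w F) v p ↔ NUltra (v F) p)

/-- There is a member of `F` on which `ψ` holds. -/
def ST_large : Prop :=
  ∀ (P : Type) [Preorder P] [OrderTop P] (k : ℕ) (v : Fin k → Name P) (F : Fin k)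
    (ψ : Fml (k + 2)) (Ψ : ℕ → Set P) (p : P), NUltra (v F) p →
    (∀ (s : Name P) (i : ℕ), ∀ q ≤ p,
      (triv P).Forces ψ (Fin.cons (num i) (Fin.cons s v : Fin (k + 1) → Name P)) q ↔
        Fd (Ψ i) q) →
    ((triv P).Forces (.ex (.and (.mem 0 F.succ) (.all (.imp (.mem 0 1) ψ)))) v p ↔
      FMem (rho Ψ) (v F) p)

def ST_part : Prop :=
  ∀ (P : Type) [Preorder P] [OrderTop P] (k : ℕ) (v : Fin k → Name P) (w F q : Fin k) (p : P),
    FEq (v w) omega p → NUltra (v F) p →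
    ((triv P).Forces (Fm.isSmallPartition w F q) v p ↔ NFun (v q) p ∧
      (∀ j : ℕ, ∀ r ≤ p, ∃ s ≤ r, ∃ i, FP (v q) i j s) ∧
      ∀ j : ℕ, ∀ r ≤ p, ¬ FMem (rho fun i => {s | FP (v q) i j s}) (v F) r)

def ST_cut : Prop :=
  ∀ (P : Type) [Preorder P] [OrderTop P] (k : ℕ) (v : Fin k → Name P) (w F q x : Fin k) (p : P),
    FEq (v w) omega p → NUltra (v F) p → NFun (v q) p → NFun (v x) p →
    ((triv P).Forces (Fm.inCut w F q x) v p ↔ NCut (v F) (v q) (v x) p)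

def ST_int : Prop :=
  ∀ (P : Type) [Preorder P] [OrderTop P] (k : ℕ) (v : Fin k → Name P) (F r x : Fin k) (p : P),
    NUltra (v F) p → NFun (v x) p →
    ((triv P).Forces (Fm.inInt F r x) v p ↔
      FMem (rho fun i => {s | ∃ a, FP (v x) i a s ∧ FP (v r) i a s}) (v F) p)

def ST_intK : Prop :=
  ∀ (P : Type) [Preorder P] [OrderTop P] (k : ℕ) (v : Fin k → Name P) (F r κ x : Fin k) (p : P)
    (K : ℕ), NUltra (v F) p → NFun (v x) p → FEq (v κ) (num K) p →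
    ((triv P).Forces (Fm.inIntK F r κ x) v p ↔
      FMem (rho fun i => {s | ∃ a, FP (v x) i a s ∧ FP3 (v r) K i a s}) (v F) p)

end Pool.Agent.Helper64.PC
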