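import Pool.Agent.Helper64.PC.Core

/-!
# The product of Silver forcings: restriction, glueing, filling; exact statements of modules
-/

namespace Pool.Agent.Helper64.PC

open Cardinal Set

namespace Sil

variable {K : Type}

open Classical in
/-- `a` on the rows in `A`, `p` on the other rows. -/
noncomputable def glue (A : Set K) (a p : Sil K) : Sil K where
  val ξ z := if ξ ∈ A then a.val ξ z else p.val ξ z
  inf ξ := by
    by_cases h : ξ ∈ A
    · simpa [h] using a.inf ξ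
    · simpa [h] using p.inf ξ
  cnt := by
    refine (a.cnt.union p.cnt).mono ?_
    rintro ξ ⟨z, hz⟩
    by_cases h : ξ ∈ A
    · left
      exact ⟨z, by simpa [h] using hz⟩
    · right
      exact ⟨z, by simpa [h] using hz⟩

/-- The restriction of `p` to the rows in `A`. -/
noncomputable def rst (A : Set K) (p : Sil K) : Sil K := glue A p ⊤

theorem glue_in {A : Set K} {a p : Sil K} {ξ : K} (h : ξ ∈ A) (z : ℕ) :
    (glue A a p).val ξ z = a.val ξ z := by simp [glue, h]

theorem glue_out {A : Set K} {a p : Sil K} {ξ : K} (h : ξ ∉ A) (z : ℕ) :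
    (glue A a p).val ξ z = p.val ξ z := by simp [glue, h]

theorem top_val (ξ : K) (z : ℕ) : (⊤ : Sil K).val ξ z = none := rfl

theorem le_rst (A : Set K) (p : Sil K) : p ≤ rst A p := by
  intro ξ z b hb
  by_cases h : ξ ∈ A
  · rwa [rst, glue_in h] at hb
  · rw [rst, glue_out h] at hb
    cases hb

theorem supp_rst (A : Set K) (p : Sil K) : (rst A p).supp ⊆ A := by
  rintro ξ ⟨z, hz⟩
  by_contra h
  rw [rst, glue_out h] at hz
  exact hz rfl

/-- If `b` extends the restriction of `p` to `A` then glueing `b` and `p` gives an extension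
of `p`. -/
theorem glue_le {A : Set K} {b p : Sil K} (h : b ≤ rst A p) : glue A b p ≤ p := by
  intro ξ z c hc
  by_cases hA : ξ ∈ A
  · rw [glue_in hA]
    exact h ξ z c (by rwa [rst, glue_in hA])
  · rwa [glue_out hA]

theorem glue_le_left {A : Set K} {b p : Sil K} (h : b.supp ⊆ A) : glue A b p ≤ b := by
  intro ξ z c hc
  have hA : ξ ∈ A := h ⟨z, by rw [hc]; simp⟩
  rwa [glue_in hA]

theorem rst_mono {A : Set K} {p q : Sil K} (h : p ≤ q) : rst A p ≤ rst A q := by
  intro ξ z c hc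
  by_cases hA : ξ ∈ A
  · rw [rst, glue_in hA] at hc ⊢
    exact h ξ z c hc
  · rw [rst, glue_out hA] at hc
    cases hc

open Classical in
/-- The points of `Z` get the values `σ`. -/
noncomputable def fill (p : Sil K) (Z : Finset (K × ℕ)) (σ : K × ℕ → Bool) : Sil K where
  val ξ z := if (ξ, z) ∈ Z then some (σ (ξ, z)) else p.val ξ z
  inf ξ := by
    have h : ({z | p.val ξ z = none} \ (Z.image Prod.snd : Finset ℕ)).Infinite :=
      (p.inf ξ).diff (Finset.finite_toSet _)
    refine h.mono ?_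
    rintro z ⟨hz, hz'⟩
    have : (ξ, z) ∉ Z := fun hm => hz' (by
      simp only [Finset.coe_image, Set.mem_image, Finset.mem_coe]
      exact ⟨(ξ, z), hm, rfl⟩)
    simpa [this] using hz
  cnt := by
    refine (p.cnt.union (Z.image Prod.fst : Finset K).countable_toSet).mono ?_
    rintro ξ ⟨z, hz⟩
    by_cases h : (ξ, z) ∈ Z
    · right
      simp only [Finset.coe_image, Set.mem_image, Finset.mem_coe]
      exact ⟨(ξ, z), h, rfl⟩
    · left
      exact ⟨z, by simpa [h] using hz⟩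

open Classical in
/-- The parity of the number of `z < N` with value `true` in the row `ξ`. -/
noncomputable def par (p : Sil K) (ξ : K) (N : ℕ) : Bool :=
  Nat.bodd ((Finset.range N).filter (fun z => p.val ξ z = some true)).card

/-- `p` decides that the parity of the number of `z < N` with value `true` in the row `ξ`
is `b`. -/
def Dec (p : Sil K) (ξ : K) (N : ℕ) (b : Bool) : Prop :=
  (∀ z < N, p.val ξ z ≠ none) ∧ p.par ξ N = b

end Sil

open Sil

/-- One step of the fusion. -/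
def ST_step : Prop :=
  ∀ (K T : Type) (V : T → Sil K → Prop) (p₀ p : Sil K) (Z : Finset (K × ℕ)),
    (∀ a q r, V a q → r ≤ q → V a r) → (∀ q ≤ p₀, ∃ r ≤ q, ∃ a, V a r) →
    p ≤ p₀ → (∀ x ∈ Z, p.val x.1 x.2 = none) →
    ∃ q ≤ p, (∀ x ∈ Z, q.val x.1 x.2 = none) ∧ ∃ S : Finset T, S.card ≤ 2 ^ Z.card ∧
      ∀ σ : K × ℕ → Bool, ∃ a ∈ S, V a (q.fill Z σ)

/-- Deciding the rows `ξ j k`, `k ≤ j`, below `g j`, with prescribed change of the parities. -/
def ST_mod : Prop :=
  ∀ (K : Type) (p : Sil K) (ξ : ℕ → ℕ → K) (g : ℕ → ℕ) (w : ℕ → ℕ → Bool),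
    (∀ j k j' k', ξ j k = ξ j' k' → j = j' ∧ k = k') →
    ∃ q ≤ p, ∀ j, ∀ k ≤ j, ∀ N ≤ g j, (∃ z < N, p.val (ξ j k) z = none) →
      q.Dec (ξ j k) N (xor (p.par (ξ j k) N) (w j k))

/-- Below some condition, the patterns of the parities of the `ξ (π t) k` belong to small
ground model sets `S i` of patterns on the blocks `[i ^ 2, (i + 1) ^ 2)`. -/
def ST_sv1 : Prop :=
  ∀ (K : Type) (p₀ : Sil K) (D : GoodData (Sil K) p₀) (ξ : ℕ → ℕ → K),
    ∃ p ≤ p₀, ∃ f : ℕ → ℕ, ∃ S : ℕ → Finset (ℕ → Bool), (∀ i, (S i).card ≤ 2 ^ i) ∧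
      D.U.W (fun t => {r | ∀ i, (i + 1) ^ 2 ≤ D.e f t → ∃ a ∈ S i, ∀ k, i ^ 2 ≤ k →
        k < (i + 1) ^ 2 → r.Dec (ξ (D.π t) k) (D.n k t) (a k)}) p

/-- A pattern which is not the sum of two patterns of `S`. -/
def ST_delta : Prop :=
  ∀ (i : ℕ) (S : Finset (ℕ → Bool)), S.card ≤ 2 ^ i →
    ∃ δ : ℕ → Bool, ∀ a ∈ S, ∀ b ∈ S, ∃ k, i ^ 2 ≤ k ∧ k < (i + 1) ^ 2 ∧ xor (a k) (b k) ≠ δ k

end Pool.Agent.Helper64.PC
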