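import Pool.Agent.Helper64.PC.Names
import Pool.Agent.Helper64.PC.Silv

/-!
# Basic facts on names of ultrafilters and functions
-/

namespace Pool.Agent.Helper64.PC

open Set

section

variable {P : Type} [Preorder P] {p₀ : P} {I : Type}

theorem fd_const (c : Prop) (p : P) : Fd {_r : P | c} p ↔ c := by
  constructor
  · intro h
    obtain ⟨_, _, _, ha, _⟩ := h p le_rfl
    exact ha
  · intro h q _
    exact ⟨q, le_rfl, q, h, le_rfl⟩

namespace UName

variable (U : UName P p₀ I)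

theorem up {X Y : I → Set P} {p : P} (hp : p ≤ p₀) (h : U.W X p)
    (h' : ∀ i, ∀ q ≤ p, Fd (X i) q → Fd (Y i) q) : U.W Y p :=
  U.inter X X Y p hp h h (fun i q hq a _ => h' i q hq a)

theorem up_sub {X Y : I → Set P} {p : P} (hp : p ≤ p₀) (h : U.W X p)
    (h' : ∀ i, X i ⊆ Y i) : U.W Y p :=
  U.up hp h fun i q _ hf r hr => by
    obtain ⟨s, hs, a, ha, hsa⟩ := hf r hr
    exact ⟨s, hs, a, h' i ha, hsa⟩

theorem and {X Y : I → Set P} {p : P} (hp : p ≤ p₀) (h : U.W X p) (h' : U.W Y p) :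
    U.W (fun i => {r | Fd (X i) r ∧ Fd (Y i) r}) p :=
  U.inter X Y _ p hp h h' fun i q _ a b r hr =>
    ⟨r, le_rfl, r, ⟨a.mono hr, b.mono hr⟩, le_rfl⟩

theorem contra {X Y : I → Set P} {p : P} (hp : p ≤ p₀) (h : U.W X p) (h' : U.W Y p)
    (hc : ∀ i, ∀ q ≤ p, Fd (X i) q → Fd (Y i) q → False) : False := by
  obtain ⟨i, q, hq, hf⟩ := U.ne _ p hp (U.and hp h h')
  obtain ⟨r, hr, a, ⟨h1, h2⟩, hra⟩ := hf q le_rfl
  exact hc i r (hr.trans hq) (h1.mono hra) (h2.mono hra)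

theorem univ {p : P} (hp : p ≤ p₀) : U.W (fun _ => {_r : P | True}) p := by
  refine U.dense _ p fun q hq => ?_
  obtain ⟨r, hr, h | h⟩ := U.ultra (fun _ => {_r : P | True}) (fun _ => {_r : P | True}) q
    (hq.trans hp) (fun i s _ => ⟨s, le_rfl, Or.inl ((fd_const _ _).2 trivial)⟩)
  · exact ⟨r, hr, h⟩
  · exact ⟨r, hr, h⟩

/-- If `X ∪ Y` is everything and `X` is not large below `p` then `Y` is large. -/
theorem of_not {X Y : I → Set P} {p : P} (hp : p ≤ p₀) (hn : ∀ q ≤ p, ¬ U.W X q)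
    (h : ∀ i, ∀ q ≤ p, ∃ r ≤ q, Fd (X i) r ∨ Fd (Y i) r) : U.W Y p := by
  refine U.dense _ p fun q hq => ?_
  obtain ⟨r, hr, h1 | h1⟩ := U.ultra X Y q (hq.trans hp) fun i s hs => h i s (hs.trans hq)
  · exact absurd h1 (hn r (hr.trans hq))
  · exact ⟨r, hr, h1⟩

/-- Finite intersections. -/
theorem all {X : ℕ → I → Set P} {p : P} (hp : p ≤ p₀) (m : ℕ) (h : ∀ k < m, U.W (X k) p) :
    U.W (fun i => {r | ∀ k < m, Fd (X k i) r}) p := by
  induction m with
  | zero =>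
    refine U.up_sub hp (U.univ hp) fun i r _ k hk => ?_
    exact absurd hk (Nat.not_lt_zero k)
  | succ m ih =>
    have h1 := ih fun k hk => h k (Nat.lt_succ_of_lt hk)
    refine U.inter _ _ _ p hp h1 (h m (Nat.lt_succ_self m)) fun i q _ ha hb r hr => ?_
    obtain ⟨s, hs, a, ha', hsa⟩ := ha r hr
    refine ⟨s, hs, s, fun k hk => ?_, le_rfl⟩
    rcases Nat.lt_succ_iff_lt_or_eq.1 hk with hk | rfl
    · exact (ha' k hk).mono hsa
    · exact hb.mono (hs.trans hr)

/-- Ground model sets. -/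
theorem ground_or {Y Y' : Set I} {p : P} (hp : p ≤ p₀)
    (h : U.W (fun t => {_r | t ∈ Y ∪ Y'}) p) (hn : ∀ q ≤ p, ¬ U.W (fun t => {_r | t ∈ Y}) q) :
    U.W (fun t => {_r | t ∈ Y'}) p := by
  have h1 : U.W (fun t => {_r : P | t ∉ Y}) p := by
    refine U.of_not hp hn fun i q _ => ⟨q, le_rfl, ?_⟩
    rw [fd_const, fd_const]
    exact em _
  refine U.inter _ _ _ p hp h h1 fun i q _ ha hb => ?_
  rw [fd_const] at ha hb ⊢
  exact ha.resolve_left hb

end UName

namespace FName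

variable {T : Type}

/-- The name of a ground model function. -/
def const (p₀ : P) (f : I → T) : FName P p₀ I T where
  V i t _ := t = f i
  mono _ _ _ _ h _ := h
  total i p _ := ⟨p, le_rfl, f i, rfl⟩
  uniq _ _ _ _ _ h h' := h.trans h'.symm

/-- A name below `p₀` is a name below any `p ≤ p₀`. -/
def below (x : FName P p₀ I T) {p : P} (hp : p ≤ p₀) : FName P p I T where
  V := x.V
  mono := x.mono
  total i q hq := x.total i q (hq.trans hp)
  uniq i t t' q hq := x.uniq i t t' q (hq.trans hp)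

/-- Function of the pair of the values of two names. -/
def map₂ {T' T'' : Type} (x : FName P p₀ I T) (y : FName P p₀ I T') (g : I → T → T' → T'') :
    FName P p₀ I T'' where
  V i c p := ∃ a b, x.V i a p ∧ y.V i b p ∧ c = g i a b
  mono := by
    rintro i c p q ⟨a, b, ha, hb, hc⟩ hq
    exact ⟨a, b, x.mono _ _ _ _ ha hq, y.mono _ _ _ _ hb hq, hc⟩
  total i p hp := by
    obtain ⟨q, hq, a, ha⟩ := x.total i p hp
    obtain ⟨r, hr, b, hb⟩ := y.total i q (hq.trans hp)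
    exact ⟨r, hr.trans hq, g i a b, a, b, x.mono _ _ _ _ ha hr, hb, rfl⟩
  uniq := by
    rintro i c c' p hp ⟨a, b, ha, hb, hc⟩ ⟨a', b', ha', hb', hc'⟩
    rw [hc, hc', x.uniq i a a' p hp ha ha', y.uniq i b b' p hp hb hb']

/-- If a property of the value holds for all possible values then it is decided densely. -/
theorem fd_of (x : FName P p₀ I T) {i : I} {p : P} (hp : p ≤ p₀) {φ : T → Prop}
    (h : ∀ a, ∀ q ≤ p, x.V i a q → φ a) : Fd {r | ∃ a, x.V i a r ∧ φ a} p := by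
  intro q hq
  obtain ⟨r, hr, a, ha⟩ := x.total i q (hq.trans hp)
  exact ⟨r, hr, r, ⟨a, ha, h a r (hr.trans hq) ha⟩, le_rfl⟩

end FName

/-- Images of names of ultrafilters under names of functions. -/
def ST_map : Prop :=
  ∀ (P : Type) [Preorder P] (p₀ : P) (I J : Type) (U : UName P p₀ I) (θ : FName P p₀ I J),
    ∃ U' : UName P p₀ J, ∀ X p, U'.W X p ↔ U.W (fun i => {r | ∃ t, θ.V i t r ∧ Fd (X t) r}) p

end

section

open Pool.Agent.Helper46.SP Name

/-- From the name of a nonprincipal ultrafilter in the sense of the forcing relation. -/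
def ST_uname : Prop :=
  ∀ (P : Type) [Preorder P] [OrderTop P] (F : Name P) (p₀ : P), NUltra F p₀ →
    ∃ U : UName P p₀ ℕ, (∀ X p, U.W X p ↔ FMem (rho X) F p) ∧
      ∀ N : ℕ, U.W (fun i => {_r | N ≤ i}) p₀

/-- The name of the generic ultrafilter. -/
def genF {P : Type} [Preorder P] [OrderTop P] (D : NegData P) : Name P :=
  Name.mk {t : Set ℕ × P // D.U t.1 t.2} (fun t => rho fun i => {_r | i ∈ t.1.1})
    (fun t => t.1.2)

def ST_gen : Prop :=
  ∀ (P : Type) [Preorder P] [OrderTop P] (D : NegData P), Dist P →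
    (∀ (X : ℕ → Set P) (p : P), FMem (rho X) (genF D) p ↔
      ∀ q ≤ p, ∃ r ≤ q, ∃ Y : Set ℕ, (∀ i, ∀ s ≤ r, (Fd (X i) s ↔ i ∈ Y)) ∧ D.U Y r) ∧
    ∀ p, NUltra (genF D) p

end

end Pool.Agent.Helper64.PC
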